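import Mathlib

/-!
# Finite p-groups with small conjugacy classes have small class and derived length
-/

set_option autoImplicit false

open scoped Classical commutatorElement

namespace Pool.Agent.Helper10.CT

section

variable {G : Type} [Group G]

theorem three_sub (A B C N : Subgroup G) [N.Normal] (h1 : ⁅⁅B, C⁆, A⁆ ≤ N)
    (h2 : ⁅⁅C, A⁆, B⁆ ≤ N) : ⁅⁅A, B⁆, C⁆ ≤ N := by
  have hm : ∀ X : Subgroup G, X ≤ N ↔ X.map (QuotientGroup.mk' N) = ⊥ := by
    intro X
    rw [Subgroup.map_eq_bot_iff, QuotientGroup.ker_mk']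
  rw [hm] at h1 h2 ⊢
  simp only [Subgroup.map_commutator] at h1 h2 ⊢
  exact Subgroup.commutator_commutator_eq_bot_of_rotate h1 h2

/-- the lower central series -/
abbrev lc (G : Type) [Group G] (n : ℕ) : Subgroup G := (⊤ : Subgroup G).lowerCentralSeries n

theorem lc_succ (n : ℕ) : lc G (n + 1) = ⁅lc G n, (⊤ : Subgroup G)⁆ := rfl

theorem lc_le (a b : ℕ) (h : a ≤ b) : lc G b ≤ lc G a :=
  Subgroup.lowerCentralSeries_antitone _ h

theorem lc_comm (a b : ℕ) : ⁅lc G a, lc G b⁆ ≤ lc G (a + b + 1) := by
  induction b generalizing a with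
  | zero => exact le_of_eq rfl
  | succ b ih =>
    rw [lc_succ b, Subgroup.commutator_comm]
    apply three_sub
    · rw [Subgroup.commutator_comm (⊤ : Subgroup G) (lc G a), ← lc_succ]
      refine (ih (a + 1)).trans (le_of_eq ?_)
      congr 1; ring
    · refine (Subgroup.commutator_mono (ih a) le_rfl).trans (le_of_eq ?_)
      rw [← lc_succ]
      congr 1

theorem derived_le_lc (j : ℕ) : derivedSeries G j ≤ lc G (2 ^ j - 1) := by
  induction j with
  | zero => exact le_top
  | succ j ih =>
    rw [derivedSeries_succ]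
    refine (Subgroup.commutator_mono ih ih).trans ((lc_comm _ _).trans (lc_le _ _ ?_))
    have : 1 ≤ 2 ^ j := Nat.one_le_two_pow
    rw [pow_succ]
    omega

end

section

variable {p : ℕ} [Fact p.Prime] {G : Type} [Group G] [Finite G]

theorem p_le_index (hG : IsPGroup p G) (K : Subgroup G) (h : K ≠ ⊤) : p ≤ K.index := by
  obtain ⟨n, hn⟩ := hG.index K
  have h2 : n ≠ 0 := by
    rintro rfl
    rw [pow_zero, Subgroup.index_eq_one] at hn
    exact h hn
  rw [hn]
  exact Nat.le_self_pow h2 p

theorem p_le_relIndex (hG : IsPGroup p G) (K L : Subgroup G) (h : ¬ L ≤ K) :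
    p ≤ K.relIndex L := by
  apply p_le_index (hG.to_subgroup L)
  rw [Ne, Subgroup.subgroupOf_eq_top]
  exact h

omit [Fact p.Prime] in
theorem relIndex_ne (K L : Subgroup G) : K.relIndex L ≠ 0 :=
  Subgroup.index_ne_zero_of_finite

/-- a proper subgroup of a p-group does not generate the group with the commutator subgroup -/
theorem eq_top_of_sup (hG : IsPGroup p G) (K : Subgroup G) (h : K ⊔ commutator G = ⊤) :
    K = ⊤ := by
  by_contra hK
  obtain ⟨M, hM, hKM⟩ := (eq_top_or_exists_le_coatom K).resolve_left hK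
  have hnil : Group.IsNilpotent G := hG.isNilpotent
  have hn : M.Normal := Subgroup.NormalizerCondition.normal_of_coatom M Group.normalizerCondition_of_isNilpotent hM
  have hq : IsPGroup p (G ⧸ M) := hG.to_quotient M
  have hnt : Nontrivial (G ⧸ M) := QuotientGroup.nontrivial_iff.mpr hM.1
  have hc := hq.bot_lt_center
  set Z := (Subgroup.center (G ⧸ M)).comap (QuotientGroup.mk' M) with hZ
  have h1 : M < Z := by
    refine lt_of_le_of_ne ?_ ?_
    · intro x hx
      rw [hZ, Subgroup.mem_comap]
      have : (QuotientGroup.mk' M) x = 1 := (QuotientGroup.eq_one_iff x).mpr hx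
      rw [this]
      exact Subgroup.one_mem _
    · intro heq
      apply hc.ne'
      rw [eq_bot_iff]
      intro z hz
      obtain ⟨x, rfl⟩ := QuotientGroup.mk_surjective z
      have hx : x ∈ Z := hz
      rw [← heq] at hx
      exact (QuotientGroup.eq_one_iff x).mpr hx
  have h2 : Z = ⊤ := hM.2 Z h1
  have h3 : commutator G ≤ M := by
    rw [commutator_def, Subgroup.commutator_le]
    intro a _ b _
    have ha : a ∈ Z := by rw [h2]; trivial
    rw [hZ, Subgroup.mem_comap, Subgroup.mem_center_iff] at ha
    have h4 := ha (QuotientGroup.mk' M b)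
    rw [← QuotientGroup.eq_one_iff]
    have h5 : (QuotientGroup.mk' M) ⁅a, b⁆ = 1 := by
      rw [map_commutatorElement, commutatorElement_eq_one_iff_mul_comm]
      exact h4.symm
    exact h5
  exact hM.1 (top_le_iff.mp (h ▸ sup_le hKM h3))

/-- centralizers modulo the lower central series -/
def cl (G : Type) [Group G] (i : ℕ) : Subgroup G where
  carrier := {x | ∀ u ∈ lc G i, ⁅u, x⁆ ∈ lc G (i + 2)}
  one_mem' := by
    intro u _
    rw [commutatorElement_one_right]
    exact Subgroup.one_mem _
  mul_mem' := by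
    intro x y hx hy u hu
    have h1 : ⁅u, x * y⁆ = ⁅u, x⁆ * (x * ⁅u, y⁆ * x⁻¹) := by
      simp only [commutatorElement_def]; group
    rw [h1]
    have hn : (lc G (i + 2)).Normal := inferInstance
    exact Subgroup.mul_mem _ (hx u hu) (hn.conj_mem _ (hy u hu) x)
  inv_mem' := by
    intro x hx u hu
    have h1 : ⁅u, x⁻¹⁆ = x⁻¹ * ⁅u, x⁆⁻¹ * x⁻¹⁻¹ := by
      simp only [commutatorElement_def]; group
    rw [h1]
    have hn : (lc G (i + 2)).Normal := inferInstance
    exact hn.conj_mem _ (Subgroup.inv_mem _ (hx u hu)) x⁻¹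

theorem lc_not_le (hG : IsPGroup p G) (t i : ℕ) (ht : lc G t ≠ ⊥) (hi : i ≤ t) :
    ¬ lc G i ≤ lc G (i + 1) := by
  intro h
  have h1 : ∀ n, lc G i ≤ lc G (i + n) := by
    intro n
    induction n with
    | zero => exact le_rfl
    | succ n ih =>
      refine h.trans ?_
      rw [← add_assoc, lc_succ i, lc_succ (i + n)]
      exact Subgroup.commutator_mono ih le_rfl
  have hnil : Group.IsNilpotent G := hG.isNilpotent
  obtain ⟨c, hc⟩ := Subgroup.nilpotent_iff_lowerCentralSeries.mp hnil
  apply ht
  rw [eq_bot_iff]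
  refine (lc_le i t hi).trans ((h1 c).trans ((lc_le c (i + c) (Nat.le_add_left _ _)).trans ?_))
  exact le_of_eq hc

theorem cl_ne_top (hG : IsPGroup p G) (t i : ℕ) (ht : lc G t ≠ ⊥) (hi : i < t) :
    cl G i ≠ ⊤ := by
  intro h
  apply lc_not_le hG t (i + 1) ht hi
  rw [lc_succ i, Subgroup.commutator_le]
  intro u hu x _
  have hx : x ∈ cl G i := by rw [h]; trivial
  exact hx u hu

theorem step_index (hG : IsPGroup p G) (x : G) (i : ℕ) :
    (Subgroup.centralizer {x}).relIndex (lc G (i + 1)) * (if x ∈ cl G i then 1 else p) ≤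
      (Subgroup.centralizer {x}).relIndex (lc G i) := by
  set C := Subgroup.centralizer {x} with hC
  set D := (C ⊓ lc G i) ⊔ lc G (i + 1) with hD
  have hle : lc G (i + 1) ≤ lc G i := lc_le _ _ (Nat.le_succ i)
  have hDi : D ≤ lc G i := sup_le inf_le_right hle
  have h1 : C.relIndex (lc G i) = (C ⊓ lc G i).relIndex D * D.relIndex (lc G i) := by
    rw [Subgroup.relIndex_mul_relIndex _ _ _ le_sup_left hDi, Subgroup.inf_relIndex_right]
  have h2 : C.relIndex (lc G (i + 1)) ≤ (C ⊓ lc G i).relIndex D := by
    have h3 : C.relIndex (lc G (i + 1)) = (C ⊓ lc G i).relIndex (lc G (i + 1)) := by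
      rw [← Subgroup.inf_relIndex_right C, ← Subgroup.inf_relIndex_right (C ⊓ lc G i), inf_assoc,
        inf_eq_right.mpr hle]
    rw [h3]
    exact Subgroup.relIndex_le_of_le_right le_sup_right (relIndex_ne _ _)
  rw [h1]
  refine Nat.mul_le_mul h2 ?_
  split_ifs with hx
  · exact Nat.one_le_iff_ne_zero.mpr (relIndex_ne _ _)
  · apply p_le_relIndex hG
    intro h4
    apply hx
    intro u hu
    have h5 := h4 hu
    rw [hD, Subgroup.mem_sup_of_normal_right] at h5
    obtain ⟨c, hc, v, hv, rfl⟩ := h5
    have h6 : ⁅c * v, x⁆ = c * ⁅v, x⁆ * c⁻¹ * ⁅c, x⁆ := by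
      simp only [commutatorElement_def]; group
    have h7 : ⁅c, x⁆ = 1 := by
      rw [commutatorElement_eq_one_iff_mul_comm]
      have := Subgroup.mem_centralizer_singleton_iff.mp hc.1
      exact this
    rw [h6, h7, mul_one]
    have hn : (lc G (i + 2)).Normal := inferInstance
    apply hn.conj_mem
    rw [lc_succ (i + 1)]
    exact Subgroup.commutator_mem_commutator hv (Subgroup.mem_top x)

theorem pow_le_index (hG : IsPGroup p G) (x : G) (t : ℕ) :
    p ^ ((Finset.range t).filter fun i => x ∉ cl G i).card ≤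
      (Subgroup.centralizer {x}).index := by
  have h1 : ∀ n, (Subgroup.centralizer {x}).relIndex (lc G n) *
      p ^ ((Finset.range n).filter fun i => x ∉ cl G i).card ≤
      (Subgroup.centralizer {x}).index := by
    intro n
    induction n with
    | zero =>
      have : lc G 0 = ⊤ := rfl
      rw [this, Subgroup.relIndex_top_right]
      simp
    | succ n ih =>
      refine le_trans ?_ ih
      have h2 := step_index hG x n
      rw [Finset.range_add_one, Finset.filter_insert]
      by_cases hx : x ∈ cl G n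
      · rw [if_neg (not_not.mpr hx)]
        rw [if_pos hx, mul_one] at h2
        exact Nat.mul_le_mul_right _ h2
      · rw [if_pos hx, Finset.card_insert_of_notMem (by simp), pow_succ]
        rw [if_neg hx] at h2
        calc (Subgroup.centralizer {x}).relIndex (lc G (n + 1)) *
              (p ^ ((Finset.range n).filter fun i => x ∉ cl G i).card * p) =
              ((Subgroup.centralizer {x}).relIndex (lc G (n + 1)) * p) *
              p ^ ((Finset.range n).filter fun i => x ∉ cl G i).card := by ring
          _ ≤ _ := Nat.mul_le_mul_right _ h2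
  refine le_trans ?_ (h1 t)
  have h2 : 1 ≤ (Subgroup.centralizer {x}).relIndex (lc G t) :=
    Nat.one_le_iff_ne_zero.mpr (relIndex_ne _ _)
  calc p ^ ((Finset.range t).filter fun i => x ∉ cl G i).card =
      1 * p ^ ((Finset.range t).filter fun i => x ∉ cl G i).card := (one_mul _).symm
    _ ≤ _ := Nat.mul_le_mul_right _ h2

/-- a p-group with small classes has small nilpotency class (Leedham-Green, Neumann, Wiegold) -/
theorem breadth (hG : IsPGroup p G) (m t : ℕ)
    (hm : ∀ x : G, (Subgroup.centralizer {x}).index ≤ p ^ m) (ht : p * m < (p - 1) * t) :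
    lc G t = ⊥ := by
  by_contra hne
  have hp := (Fact.out : p.Prime)
  have := Fintype.ofFinite G
  have h1 : ∀ x : G, ((Finset.range t).filter fun i => x ∉ cl G i).card ≤ m := by
    intro x
    exact (Nat.pow_le_pow_iff_right hp.one_lt).mp ((pow_le_index hG x t).trans (hm x))
  have h2 : ∀ i ∈ Finset.range t, (p - 1) * Fintype.card G ≤
      p * (Finset.univ.filter fun x : G => x ∉ cl G i).card := by
    intro i hi
    have h3 := p_le_index hG (cl G i) (cl_ne_top hG t i hne (Finset.mem_range.mp hi))
    have h4 := (cl G i).index_mul_card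
    rw [Nat.card_eq_fintype_card, Nat.card_eq_fintype_card] at h4
    have h5 : (Finset.univ.filter fun x : G => x ∈ cl G i).card = Fintype.card (cl G i) := by
      rw [Fintype.card_subtype]
    have h6 := Finset.card_filter_add_card_filter_not (s := (Finset.univ : Finset G))
      (fun x : G => x ∈ cl G i)
    rw [h5, Finset.card_univ] at h6
    have h7 : p * Fintype.card (cl G i) ≤ Fintype.card G := by
      rw [← h4]; exact Nat.mul_le_mul_right _ h3
    obtain ⟨q, rfl⟩ : ∃ q, p = q + 1 := ⟨p - 1, (Nat.succ_pred_eq_of_pos hp.pos).symm⟩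
    rw [Nat.add_sub_cancel]
    nlinarith
  have h3 : ∑ x : G, ((Finset.range t).filter fun i => x ∉ cl G i).card =
      ∑ i ∈ Finset.range t, (Finset.univ.filter fun x : G => x ∉ cl G i).card := by
    simp only [Finset.card_filter]
    exact Finset.sum_comm
  have h4 : (p - 1) * t * Fintype.card G ≤ p * m * Fintype.card G := by
    calc (p - 1) * t * Fintype.card G = ∑ _i ∈ Finset.range t, (p - 1) * Fintype.card G := by
          rw [Finset.sum_const, Finset.card_range, smul_eq_mul]; ring
      _ ≤ ∑ i ∈ Finset.range t, p * (Finset.univ.filter fun x : G => x ∉ cl G i).card :=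
          Finset.sum_le_sum h2
      _ = p * ∑ x : G, ((Finset.range t).filter fun i => x ∉ cl G i).card := by
          rw [h3, Finset.mul_sum]
      _ ≤ p * ∑ _x : G, m := Nat.mul_le_mul_left _ (Finset.sum_le_sum fun x _ => h1 x)
      _ = p * m * Fintype.card G := by
          rw [Finset.sum_const, Finset.card_univ, smul_eq_mul]; ring
  have h5 := Nat.le_of_mul_le_mul_right h4 Fintype.card_pos
  omega

/-- a p-group with small classes has small derived length -/
theorem breadth_dl (hG : IsPGroup p G) (m j : ℕ)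
    (hm : ∀ x : G, (Subgroup.centralizer {x}).index ≤ p ^ m)
    (ht : p * m < (p - 1) * (2 ^ j - 1)) : derivedSeries G j = ⊥ := by
  rw [eq_bot_iff]
  exact (derived_le_lc j).trans (le_of_eq (breadth hG m (2 ^ j - 1) hm ht))

end

end Pool.Agent.Helper10.CT
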