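import Pool.Agent.Helper10.CT.Orth

/-!
# Character tables: the orbit formula for a normal subgroup
-/

set_option autoImplicit false

open scoped Classical

namespace Pool.Agent.Helper10.CT

section

variable {G V : Type} [Group G] [AddCommGroup V] [Module ℂ V] [FiniteDimensional ℂ V]

theorem finrank_pos_of_sim (ρ : G →* (V →ₗ[ℂ] V)) (h : Sim ρ) : 0 < Module.finrank ℂ V := by
  have := h.1
  exact Module.finrank_pos

/-- there are irreducible subrepresentations -/
theorem exists_sim_sub (ρ : G →* (V →ₗ[ℂ] V)) (hn : Nontrivial V) :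
    ∃ (U : Submodule ℂ V) (hU : ∀ g, ∀ u ∈ U, ρ g u ∈ U), Sim (rst ρ U hU) := by
  have hex : ∃ n : ℕ, ∃ U : Submodule ℂ V, (∀ g, ∀ u ∈ U, ρ g u ∈ U) ∧ U ≠ ⊥ ∧
      Module.finrank ℂ U = n :=
    ⟨_, ⊤, fun _ _ _ => trivial, top_ne_bot, rfl⟩
  obtain ⟨U, hU, hb, hf⟩ := Nat.find_spec hex
  have hmin : ∀ U' : Submodule ℂ V, (∀ g, ∀ u ∈ U', ρ g u ∈ U') → U' ≠ ⊥ →
      Module.finrank ℂ U ≤ Module.finrank ℂ U' := by
    intro U' h1 h2
    rw [hf]
    exact Nat.find_min' hex ⟨U', h1, h2, rfl⟩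
  refine ⟨U, hU, ?_, ?_⟩
  · exact Submodule.nontrivial_iff_ne_bot.mpr hb
  · intro W hW
    by_cases h0 : W = ⊥
    · exact Or.inl h0
    · right
      have h1 : W.map U.subtype ≠ ⊥ := by
        intro h
        apply h0
        rw [eq_bot_iff]
        intro w hw
        have h2 : (w : V) ∈ W.map U.subtype := ⟨w, hw, rfl⟩
        rw [h, Submodule.mem_bot] at h2
        rw [Submodule.mem_bot]
        exact Subtype.ext h2
      have h2 := hmin (W.map U.subtype) (by
        rintro g _ ⟨w, hw, rfl⟩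
        exact ⟨rst ρ U hU g w, hW g w hw, rfl⟩) h1
      have h3 : W.map U.subtype ≤ U := Submodule.map_subtype_le U W
      have h4 : W.map U.subtype = U := Submodule.eq_of_le_of_finrank_le h3 h2
      rw [eq_top_iff]
      intro u _
      have h5 : (u : V) ∈ W.map U.subtype := by rw [h4]; exact u.2
      obtain ⟨w, hw, hwu⟩ := h5
      have : w = u := Subtype.ext hwu
      rw [← this]; exact hw

end

section

variable {G V : Type} [Group G] [Fintype G] [AddCommGroup V] [Module ℂ V] [FiniteDimensional ℂ V]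
  (N : Subgroup G) [N.Normal]

/-- conjugate of a representation of a normal subgroup -/
def cj {G W : Type} [Group G] [AddCommGroup W] [Module ℂ W] (N : Subgroup G) [N.Normal]
    (σ : N →* (W →ₗ[ℂ] W)) (x : G) : N →* (W →ₗ[ℂ] W) :=
  σ.comp (MulAut.conjNormal x : MulAut N).toMonoidHom

omit [Fintype G] in
theorem sim_cj {W : Type} [AddCommGroup W] [Module ℂ W] (σ : N →* (W →ₗ[ℂ] W)) (hσ : Sim σ) (x : G) :
    Sim (cj N σ x) := by
  refine ⟨hσ.1, fun U hU => hσ.2 U fun n u hu => ?_⟩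
  have := hU ((MulAut.conjNormal x : MulAut N).symm n) u hu
  have h2 : cj N σ x ((MulAut.conjNormal x : MulAut N).symm n) = σ n := by
    show σ ((MulAut.conjNormal x : MulAut N) ((MulAut.conjNormal x : MulAut N).symm n)) = σ n
    rw [MulEquiv.apply_symm_apply]
  rwa [h2] at this

/-- the stabilizer of the character of a representation of a normal subgroup -/
def stb {G W : Type} [Group G] [AddCommGroup W] [Module ℂ W] (N : Subgroup G) [N.Normal]
    (σ : N →* (W →ₗ[ℂ] W)) : Subgroup G where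
  carrier := {x | ∀ n, chr σ ((MulAut.conjNormal x : MulAut N) n) = chr σ n}
  one_mem' := by intro n; simp
  mul_mem' := by
    intro x y hx hy n
    have : (MulAut.conjNormal (x * y) : MulAut N) n =
        (MulAut.conjNormal x : MulAut N) ((MulAut.conjNormal y : MulAut N) n) := by
      rw [map_mul]; rfl
    rw [this, hx, hy]
  inv_mem' := by
    intro x hx n
    have h := hx ((MulAut.conjNormal x⁻¹ : MulAut N) n)
    have : (MulAut.conjNormal x : MulAut N) ((MulAut.conjNormal x⁻¹ : MulAut N) n) = n := by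
      rw [← MulAut.mul_apply, ← map_mul, mul_inv_cancel, map_one]; rfl
    rw [this] at h
    exact h.symm

omit [Fintype G] in
theorem chr_cj_eq_iff {W : Type} [AddCommGroup W] [Module ℂ W] (σ : N →* (W →ₗ[ℂ] W)) (x y : G) :
    chr (cj N σ x) = chr (cj N σ y) ↔ x * y⁻¹ ∈ stb N σ := by
  constructor
  · intro h n
    have h1 := congrFun h ((MulAut.conjNormal y⁻¹ : MulAut N) n)
    have e1 : chr (cj N σ x) ((MulAut.conjNormal y⁻¹ : MulAut N) n) =
        chr σ ((MulAut.conjNormal (x * y⁻¹) : MulAut N) n) := by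
      rw [map_mul]; rfl
    have e2 : chr (cj N σ y) ((MulAut.conjNormal y⁻¹ : MulAut N) n) = chr σ n := by
      have : (MulAut.conjNormal y : MulAut N) ((MulAut.conjNormal y⁻¹ : MulAut N) n) = n := by
        rw [← MulAut.mul_apply, ← map_mul, mul_inv_cancel, map_one]; rfl
      show chr σ ((MulAut.conjNormal y : MulAut N) ((MulAut.conjNormal y⁻¹ : MulAut N) n)) = _
      rw [this]
    rw [← e1, ← e2, h1]
  · intro h
    funext n
    have h1 := h ((MulAut.conjNormal y : MulAut N) n)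
    have e1 : (MulAut.conjNormal (x * y⁻¹) : MulAut N) ((MulAut.conjNormal y : MulAut N) n) =
        (MulAut.conjNormal x : MulAut N) n := by
      rw [← MulAut.mul_apply, ← map_mul, inv_mul_cancel_right]
    rw [e1] at h1
    exact h1

/-- the restriction to a normal subgroup -/
abbrev rsN {G V : Type} [Group G] [AddCommGroup V] [Module ℂ V] (N : Subgroup G)
    (ρ : G →* (V →ₗ[ℂ] V)) : N →* (V →ₗ[ℂ] V) := ρ.comp N.subtype

/-- Clifford's formula for the restriction of an irreducible character -/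
theorem clifford (ρ : G →* (V →ₗ[ℂ] V)) (hρ : Sim ρ) (U : Submodule ℂ V)
    (hU : ∀ n : N, ∀ u ∈ U, rsN N ρ n u ∈ U) (n : N) :
    (Module.finrank ℂ V : ℂ) * ∑ x : G, chr (cj N (rst (rsN N ρ) U hU) x) n =
      Fintype.card G * Module.finrank ℂ U * chr ρ n := by
  set σ := rst (rsN N ρ) U hU with hσ
  set T : V →ₗ[ℂ] V := ∑ x : G, ρ (x * n * x⁻¹) with hT
  have hcomm : ∀ g, T * ρ g = ρ g * T := by
    intro g
    rw [hT, Finset.sum_mul, Finset.mul_sum]
    refine Fintype.sum_equiv (Equiv.mulLeft g⁻¹) _ _ fun x => ?_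
    rw [← map_mul, ← map_mul]
    congr 1
    rw [Equiv.coe_mulLeft]
    group
  obtain ⟨c, hc⟩ := schur ρ hρ T hcomm
  have h1 : c * Module.finrank ℂ V = Fintype.card G * chr ρ n := by
    have h2 : LinearMap.trace ℂ V T = c * Module.finrank ℂ V := by
      rw [hc, map_smul, LinearMap.trace_one, smul_eq_mul]
    have h3 : LinearMap.trace ℂ V T = Fintype.card G * chr ρ n := by
      rw [hT, map_sum]
      have : ∀ x : G, LinearMap.trace ℂ V (ρ (x * n * x⁻¹)) = chr ρ n := fun x => chr_conj ρ n x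
      rw [Finset.sum_congr rfl fun x _ => this x, Finset.sum_const, Finset.card_univ,
        nsmul_eq_mul]
    rw [← h2, h3]
  have h2 : ∑ x : G, cj N σ x n = c • (1 : U →ₗ[ℂ] U) := by
    ext u
    have h3 : T u = c • (u : V) := by rw [hc]; rfl
    rw [hT, LinearMap.sum_apply] at h3
    rw [LinearMap.sum_apply]
    push_cast
    have h4 : ∀ x : G, ((cj N σ x n u : U) : V) = ρ (x * n * x⁻¹) u := fun x => rfl
    rw [Finset.sum_congr rfl fun x _ => h4 x, h3]
    rfl
  have h3 : ∑ x : G, chr (cj N σ x) n = c * Module.finrank ℂ U := by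
    have h4 := congrArg (LinearMap.trace ℂ U) h2
    rw [map_sum, map_smul, LinearMap.trace_one, smul_eq_mul] at h4
    exact h4
  rw [h3]
  linear_combination (Module.finrank ℂ U : ℂ) * h1

/-- the orbit formula -/
theorem orbit (ρ : G →* (V →ₗ[ℂ] V)) (hρ : Sim ρ) (U : Submodule ℂ V)
    (hU : ∀ n : N, ∀ u ∈ U, rsN N ρ n u ∈ U) (hs : Sim (rst (rsN N ρ) U hU)) :
    ((stb N (rst (rsN N ρ) U hU)).index : ℂ) * (Module.finrank ℂ U : ℂ) ^ 2 *
      ∑ n : N, chr ρ n * chr ρ (n⁻¹ : N) = (Module.finrank ℂ V : ℂ) ^ 2 * Fintype.card N := by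
  set σ := rst (rsN N ρ) U hU with hσ
  set S := stb N σ with hS
  have h1 : (Fintype.card G : ℂ) ^ 2 * (Module.finrank ℂ U : ℂ) ^ 2 *
      ∑ n : N, chr ρ n * chr ρ (n⁻¹ : N) =
      (Module.finrank ℂ V : ℂ) ^ 2 * ∑ n : N, (∑ x : G, chr (cj N σ x) n) *
        (∑ y : G, chr (cj N σ y) n⁻¹) := by
    rw [Finset.mul_sum, Finset.mul_sum]
    refine Finset.sum_congr rfl fun n _ => ?_
    have e1 := clifford N ρ hρ U hU n
    have e2 := clifford N ρ hρ U hU n⁻¹
    rw [← hσ] at e1 e2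
    calc (Fintype.card G : ℂ) ^ 2 * (Module.finrank ℂ U : ℂ) ^ 2 * (chr ρ n * chr ρ (n⁻¹ : N)) =
        (Fintype.card G * Module.finrank ℂ U * chr ρ n) *
          (Fintype.card G * Module.finrank ℂ U * chr ρ (n⁻¹ : N)) := by ring
      _ = _ := by rw [← e1, ← e2]; ring
  have h2 : ∑ n : N, (∑ x : G, chr (cj N σ x) n) * (∑ y : G, chr (cj N σ y) n⁻¹) =
      ∑ x : G, ∑ y : G, ∑ n : N, chr (cj N σ x) n * chr (cj N σ y) n⁻¹ := by
    have : ∀ n : N, (∑ x : G, chr (cj N σ x) n) * (∑ y : G, chr (cj N σ y) n⁻¹) =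
        ∑ x : G, ∑ y : G, chr (cj N σ x) n * chr (cj N σ y) n⁻¹ := by
      intro n
      rw [Finset.sum_mul]
      exact Finset.sum_congr rfl fun x _ => by rw [Finset.mul_sum]
    rw [Finset.sum_congr rfl fun n _ => this n, Finset.sum_comm]
    exact Finset.sum_congr rfl fun x _ => Finset.sum_comm
  have h3 : ∀ x y : G, ∑ n : N, chr (cj N σ x) n * chr (cj N σ y) n⁻¹ =
      if x * y⁻¹ ∈ S then (Fintype.card N : ℂ) else 0 := by
    intro x y
    by_cases h : chr (cj N σ x) = chr (cj N σ y)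
    · rw [if_pos ((chr_cj_eq_iff N σ x y).mp h)]
      rw [← orth_self (cj N σ y) (sim_cj N σ hs y), h]
    · rw [if_neg fun h' => h ((chr_cj_eq_iff N σ x y).mpr h')]
      exact orth_ne _ _ (sim_cj N σ hs x) (sim_cj N σ hs y) h
  have h4 : ∀ y : G, ∑ x : G, (if x * y⁻¹ ∈ S then (Fintype.card N : ℂ) else 0) =
      Fintype.card S * Fintype.card N := by
    intro y
    have e1 : ∑ x : G, (if x * y⁻¹ ∈ S then (Fintype.card N : ℂ) else 0) =
        ∑ z : G, (if z ∈ S then (Fintype.card N : ℂ) else 0) := by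
      refine Fintype.sum_equiv (Equiv.mulRight y⁻¹) _ _ fun x => rfl
    rw [e1, ← Finset.sum_filter, Finset.sum_const, nsmul_eq_mul]
    congr 2
    rw [Fintype.card_subtype]
  have h5 : ∑ x : G, ∑ y : G, ∑ n : N, chr (cj N σ x) n * chr (cj N σ y) n⁻¹ =
      Fintype.card G * (Fintype.card S * Fintype.card N) := by
    rw [Finset.sum_congr rfl fun x _ => Finset.sum_congr rfl fun y _ => h3 x y, Finset.sum_comm,
      Finset.sum_congr rfl fun y _ => h4 y, Finset.sum_const, Finset.card_univ, nsmul_eq_mul]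
  rw [h2, h5] at h1
  have h6 : (Fintype.card G : ℂ) = S.index * Fintype.card S := by
    have := S.index_mul_card
    rw [Nat.card_eq_fintype_card, Nat.card_eq_fintype_card] at this
    rw [← this]; push_cast; ring
  have hG : (Fintype.card G : ℂ) ≠ 0 := by exact_mod_cast Fintype.card_ne_zero
  have hSc : (Fintype.card S : ℂ) ≠ 0 := by exact_mod_cast Fintype.card_ne_zero
  apply mul_left_cancel₀ hG
  apply mul_left_cancel₀ hSc
  calc (Fintype.card S : ℂ) * (Fintype.card G * (S.index * (Module.finrank ℂ U : ℂ) ^ 2 *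
        ∑ n : N, chr ρ n * chr ρ (n⁻¹ : N))) =
      Fintype.card G * (S.index * Fintype.card S) * (Module.finrank ℂ U : ℂ) ^ 2 *
        ∑ n : N, chr ρ n * chr ρ (n⁻¹ : N) := by ring
    _ = (Fintype.card G : ℂ) ^ 2 * (Module.finrank ℂ U : ℂ) ^ 2 *
        ∑ n : N, chr ρ n * chr ρ (n⁻¹ : N) := by rw [← h6]; ring
    _ = _ := by rw [h1]; ring

end

end Pool.Agent.Helper10.CT
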