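import Pool.Agent.Helper10.CT.Quot

/-!
# Character tables: a layer of the derived series, bound by character degrees
-/

set_option autoImplicit false

open scoped Classical commutatorElement

namespace Pool.Agent.Helper10.CT

theorem derivedSeries_add_le {H : Type} [Group H] (K : Subgroup H) (s : ℕ)
    (hK : derivedSeries H s ≤ K) (j : ℕ) :
    derivedSeries H (s + j) ≤ (derivedSeries K j).map K.subtype := by
  induction j with
  | zero =>
    rw [derivedSeries_zero, ← MonoidHom.range_eq_map, Subgroup.range_subtype]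
    exact hK
  | succ j ih =>
    rw [← add_assoc, derivedSeries_succ H (s + j), derivedSeries_succ K j,
      Subgroup.map_commutator]
    exact Subgroup.commutator_mono ih ih

theorem comm_ops {H V : Type} [Group H] [AddCommGroup V] [Module ℂ V] (ρ : H →* (V →ₗ[ℂ] V))
    (a b : H) (h : ρ ⁅a, b⁆ = 1) : ρ a * ρ b = ρ b * ρ a := by
  rw [← map_mul, ← map_mul]
  have : a * b = ⁅a, b⁆ * (b * a) := by
    rw [commutatorElement_def]; group
  rw [this, map_mul ρ ⁅a, b⁆, h, one_mul]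

section

variable {P₁ P₂ : Type} [Group P₁] [Group P₂] [Fintype P₁] [Fintype P₂]
  (e : ConjClasses P₁ ≃ ConjClasses P₂) (f : Irr P₁ ≃ Irr P₂)
  (hef : ∀ (χ : Irr P₁) (g : P₁) (h : P₂), e (ConjClasses.mk g) = ConjClasses.mk h →
    (f χ).1 h = χ.1 g)

include hef

/-- degrees of the irreducible constituents of restrictions to the corresponding subgroup -/
theorem degree_bound {p : ℕ} [Fact p.Prime] (h₁ : IsPGroup p P₁) (K L C : Subgroup P₂)
    [K.Normal] [L.Normal] (hLL : ∀ a ∈ L, ∀ b ∈ L, ⁅a, b⁆ ∈ K)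
    (hC : ∀ c ∈ C, ∀ n ∈ L, ⁅c, n⁆ ∈ K) (hL : L ≤ commutator P₂) (k : ℕ)
    (hk : C.index < p ^ (2 * k + 3)) {V : Type} [AddCommGroup V] [Module ℂ V]
    [FiniteDimensional ℂ V] (ρ : P₁ →* (V →ₗ[ℂ] V)) (hρ : Sim ρ)
    (hK : ∀ h ∈ K, (f ⟨chr ρ, mem_Irr_of_sim ρ hρ⟩).1 h = (f ⟨chr ρ, mem_Irr_of_sim ρ hρ⟩).1 1)
    (U : Submodule ℂ V) (hU : ∀ n : corr f L, ∀ u ∈ U, rsN (corr f L) ρ n u ∈ U)
    (hs : Sim (rst (rsN (corr f L) ρ) U hU)) : Module.finrank ℂ U < p ^ (k + 1) := by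
  have hp := (Fact.out : p.Prime)
  set χ : Irr P₁ := ⟨chr ρ, mem_Irr_of_sim ρ hρ⟩ with hχ
  obtain ⟨V₂, _, _, _, ρ₂, hρ₂, hc₂⟩ := exists_sim_of_mem_Irr (f χ).1 (f χ).2
  have hK₂ : ∀ h ∈ K, ρ₂ h = 1 := by
    intro h hh
    apply (chr_props ρ₂ h).2.2
    rw [hc₂, hK h hh, ← hc₂, chr_one]
  have hn₂ := hρ₂.1
  obtain ⟨U₂, hU₂, hs₂⟩ := exists_sim_sub (rsN L ρ₂) hn₂
  set σ₂ := rst (rsN L ρ₂) U₂ hU₂ with hσ₂
  have hk₂ : ∀ n : L, (n : P₂) ∈ K → σ₂ n = 1 := by
    intro n hn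
    ext u
    have h1 := LinearMap.congr_fun (hK₂ n hn) (u : V₂)
    exact h1
  have hone : Module.finrank ℂ U₂ = 1 := by
    apply scalar_finrank_one σ₂ hs₂
    intro n
    apply schur σ₂ hs₂
    intro n'
    exact comm_ops σ₂ n n' (hk₂ _ (hLL n n.2 n' n'.2))
  have hCst : C ≤ stb L σ₂ := by
    intro c hc n
    have h1 : (MulAut.conjNormal c : MulAut L) n = (⟨⁅c, (n : P₂)⁆, by
        have := (inferInstance : L.Normal).conj_mem n n.2 c
        rw [commutatorElement_def]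
        exact L.mul_mem this (L.inv_mem n.2)⟩ : L) * n := by
      apply Subtype.ext
      rw [MulAut.conjNormal_apply]
      show c * n * c⁻¹ = ⁅c, (n : P₂)⁆ * n
      rw [commutatorElement_def]; group
    rw [h1]
    unfold chr
    rw [map_mul, hk₂ _ (hC c hc n n.2), one_mul]
  have hidx : (stb L σ₂).index ≤ C.index := by
    have h1 : C.index ≠ 0 := Subgroup.index_ne_zero_of_finite
    exact Nat.le_of_dvd (Nat.pos_of_ne_zero h1) (Subgroup.index_dvd_of_le hCst)
  set σ := rst (rsN (corr f L) ρ) U hU with hσ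
  have o1 := orbit (corr f L) ρ hρ U hU hs
  have o2 := orbit L ρ₂ hρ₂ U₂ hU₂ hs₂
  rw [← hσ] at o1
  rw [← hσ₂, hone] at o2
  have hdim : (Module.finrank ℂ V : ℂ) = Module.finrank ℂ V₂ := by
    rw [← chr_one ρ, ← chr_one ρ₂, hc₂]
    exact (f_one e f hef χ).symm
  have hnorm : ∑ n : corr f L, chr ρ n * chr ρ (n⁻¹ : corr f L) =
      ∑ n : L, chr ρ₂ n * chr ρ₂ (n⁻¹ : L) := by
    rw [hc₂]
    exact norm_corr e f hef L χ
  have hcard : Fintype.card (corr f L) = Fintype.card L := by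
    have := card_corr e f hef L
    rwa [Nat.card_eq_fintype_card, Nat.card_eq_fintype_card] at this
  rw [hnorm, hdim, hcard, ← o2] at o1
  have hS : ∑ n : L, chr ρ₂ n * chr ρ₂ (n⁻¹ : L) ≠ 0 := by
    intro h0
    rw [h0, mul_zero] at o2
    have h1 : (Module.finrank ℂ V₂ : ℂ) ≠ 0 := by
      exact_mod_cast (finrank_pos_of_sim ρ₂ hρ₂).ne'
    have h2 : (Fintype.card L : ℂ) ≠ 0 := by exact_mod_cast Fintype.card_ne_zero
    exact mul_ne_zero (pow_ne_zero 2 h1) h2 o2.symm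
  have hmain := mul_right_cancel₀ hS o1
  have hN : (stb (corr f L) σ).index * (Module.finrank ℂ U) ^ 2 = (stb L σ₂).index := by
    have h1 : ((stb (corr f L) σ).index : ℂ) * (Module.finrank ℂ U : ℂ) ^ 2 =
        (stb L σ₂).index := by
      rw [hmain]; simp
    exact_mod_cast h1
  have hcorr : corr f L ≤ commutator P₁ := by
    intro g hg
    obtain ⟨h, hgh⟩ := exists_right e g
    exact (comm_iff e f hef g h hgh).mpr (hL ((mem_corr_iff e f hef L g h hgh).mp hg))
  by_cases hst : stb (corr f L) σ = ⊤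
  · rw [hobby h₁ ρ hρ (corr f L) hcorr U hU hs hst]
    exact Nat.one_lt_pow (Nat.succ_ne_zero k) hp.one_lt
  · have h1 : p ≤ (stb (corr f L) σ).index := by
      obtain ⟨n, hn⟩ := h₁.index (stb (corr f L) σ)
      have h2 : n ≠ 0 := by
        rintro rfl
        rw [pow_zero, Subgroup.index_eq_one] at hn
        exact hst hn
      rw [hn]
      exact Nat.le_self_pow h2 p
    have h2 : p * (Module.finrank ℂ U) ^ 2 < p * (p ^ (k + 1)) ^ 2 := by
      calc p * (Module.finrank ℂ U) ^ 2 ≤ (stb (corr f L) σ).index * (Module.finrank ℂ U) ^ 2 :=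
            Nat.mul_le_mul_right _ h1
        _ = (stb L σ₂).index := hN
        _ < p ^ (2 * k + 3) := lt_of_le_of_lt hidx hk
        _ = p * (p ^ (k + 1)) ^ 2 := by ring
    have h3 := lt_of_mul_lt_mul_left h2 (Nat.zero_le _)
    exact lt_of_pow_lt_pow_left₀ 2 (Nat.zero_le _) h3

/-- one layer -/
theorem layer {p : ℕ} [Fact p.Prime] (h₁ : IsPGroup p P₁) (K L C : Subgroup P₂)
    [K.Normal] [L.Normal] (hLL : ∀ a ∈ L, ∀ b ∈ L, ⁅a, b⁆ ∈ K)
    (hC : ∀ c ∈ C, ∀ n ∈ L, ⁅c, n⁆ ∈ K) (hL : L ≤ commutator P₂) (k : ℕ)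
    (hk : C.index < p ^ (2 * k + 3)) :
    (derivedSeries (corr f L) (k + 1)).map (corr f L).subtype ≤ corr f K := by
  intro g hg χ hχ
  obtain ⟨V, _, _, _, ρ, hρ, hc⟩ := exists_sim_of_mem_Irr χ.1 χ.2
  have hn := hρ.1
  obtain ⟨U, hU, hs⟩ := exists_sim_sub (rsN (corr f L) ρ) hn
  have hχ' : χ = ⟨chr ρ, mem_Irr_of_sim ρ hρ⟩ := Subtype.ext hc.symm
  have hb := degree_bound e f hef h₁ K L C hLL hC hL k hk ρ hρ (by rw [← hχ']; exact hχ) U hU hs
  have hUn := hs.1
  obtain ⟨v, hv0, hv⟩ := exists_fixed (k + 1) (corr f L) (h₁.to_subgroup _) U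
    (rst (rsN (corr f L) ρ) U hU) hb
  set D := (derivedSeries (corr f L) (k + 1)).map (corr f L).subtype with hD
  have hDn : D.Normal := inferInstance
  let F : Submodule ℂ V :=
    { carrier := {w | ∀ h ∈ D, ρ h w = w}
      add_mem' := by
        intro a b ha hb h hh
        rw [map_add, ha h hh, hb h hh]
      zero_mem' := by
        intro h _
        exact map_zero _
      smul_mem' := by
        intro c a ha h hh
        rw [map_smul, ha h hh] }
  have hF : F = ⊤ := by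
    rcases hρ.2 F (by
      intro x w hw h hh
      have h1 : x⁻¹ * h * x ∈ D := by
        have := hDn.conj_mem h hh x⁻¹
        rwa [inv_inv] at this
      have h2 : ρ h * ρ x = ρ x * ρ (x⁻¹ * h * x) := by
        rw [← map_mul, ← map_mul]; congr 1; group
      rw [← Module.End.mul_apply, h2, Module.End.mul_apply, hw _ h1]) with h | h
    · exfalso
      apply hv0
      have h1 : (v : V) ∈ F := by
        rintro _ ⟨n, hn', rfl⟩
        exact congrArg Subtype.val (hv n hn')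
      rw [h, Submodule.mem_bot] at h1
      exact Subtype.ext h1
    · exact h
  have hg1 : ρ g = 1 := by
    ext w
    have h1 : w ∈ F := by rw [hF]; trivial
    exact h1 g hg
  have h2 : ρ 1 = 1 := map_one ρ
  rw [← hc]
  unfold chr
  rw [hg1, h2]

end

end Pool.Agent.Helper10.CT
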