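import Pool.Agent.Helper10.CT.Layer
import Pool.Agent.Helper10.CT.Breadth

/-!
# Character tables: a layer of the derived series, bound by class sizes
-/

set_option autoImplicit false

open scoped Classical commutatorElement

namespace Pool.Agent.Helper10.CT

section

variable {G : Type} [Group G]

/-- the centralizer of an element modulo a normal subgroup -/
def cm {G : Type} [Group G] (K : Subgroup G) [K.Normal] (x : G) : Subgroup G :=
  (Subgroup.centralizer {(QuotientGroup.mk x : G ⧸ K)}).comap (QuotientGroup.mk' K)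

theorem mem_cm (K : Subgroup G) [K.Normal] (x y : G) : y ∈ cm K x ↔ ⁅y, x⁆ ∈ K := by
  unfold cm
  rw [Subgroup.mem_comap, Subgroup.mem_centralizer_singleton_iff, ← QuotientGroup.eq_one_iff]
  have h1 : (QuotientGroup.mk ⁅y, x⁆ : G ⧸ K) = ⁅(QuotientGroup.mk' K) y, (QuotientGroup.mk' K) x⁆ := by
    rw [← map_commutatorElement]; rfl
  rw [h1, commutatorElement_eq_one_iff_mul_comm]
  constructor <;> intro h <;> exact h

variable [Fintype G]

theorem le_card_mod (K : Subgroup G) [K.Normal] (x : G) :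
    (cm K x).index * Nat.card K ≤ Nat.card {g : G | ∃ y, g * (y * x * y⁻¹)⁻¹ ∈ K} := by
  rw [Subgroup.index, ← Nat.card_prod]
  apply Nat.card_le_card_of_injective (fun z : (G ⧸ cm K x) × K =>
    (⟨(z.2 : G) * (z.1.out * x * z.1.out⁻¹), z.1.out, by
      rw [mul_assoc, mul_inv_cancel, mul_one]; exact z.2.2⟩ :
      {g : G | ∃ y, g * (y * x * y⁻¹)⁻¹ ∈ K}))
  rintro ⟨q, k⟩ ⟨q', k'⟩ h
  have h1 : (k : G) * (q.out * x * q.out⁻¹) = k' * (q'.out * x * q'.out⁻¹) :=
    congrArg Subtype.val h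
  have h2 : q'.out⁻¹ * q.out ∈ cm K x := by
    rw [mem_cm]
    have h3 : ⁅q'.out⁻¹ * q.out, x⁆ =
        q'.out⁻¹ * ((k : G)⁻¹ * k') * q'.out⁻¹⁻¹ := by
      have h4 : q.out * x * q.out⁻¹ = (k : G)⁻¹ * (k' * (q'.out * x * q'.out⁻¹)) := by
        rw [← h1]; group
      calc ⁅q'.out⁻¹ * q.out, x⁆ = q'.out⁻¹ * (q.out * x * q.out⁻¹) * q'.out * x⁻¹ := by
            rw [commutatorElement_def]; group
        _ = _ := by rw [h4]; group
    rw [h3]
    exact (inferInstance : K.Normal).conj_mem _ (K.mul_mem (K.inv_mem k.2) k'.2) _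
  have h3 : q' = q := by
    rw [← q.out_eq', ← q'.out_eq']
    exact QuotientGroup.eq.mpr h2
  subst h3
  have h4 : (k : G) = k' := mul_right_cancel h1
  exact Prod.ext rfl (Subtype.ext h4)

theorem card_mod_le (K C : Subgroup G) [K.Normal] (v : G) (hC : ∀ c ∈ C, ⁅c, v⁆ ∈ K) :
    Nat.card {g : G | ∃ y, g * (y * v * y⁻¹)⁻¹ ∈ K} ≤ C.index * Nat.card K := by
  rw [Subgroup.index, ← Nat.card_prod]
  apply Nat.card_le_card_of_surjective (fun z : (G ⧸ C) × K =>
    (⟨(z.2 : G) * (z.1.out * v * z.1.out⁻¹), z.1.out, by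
      rw [mul_assoc, mul_inv_cancel, mul_one]; exact z.2.2⟩ :
      {g : G | ∃ y, g * (y * v * y⁻¹)⁻¹ ∈ K}))
  rintro ⟨g, y, hy⟩
  set q : G ⧸ C := QuotientGroup.mk y with hq
  have h1 : q.out⁻¹ * y ∈ C := by
    rw [← QuotientGroup.eq]
    exact q.out_eq'
  set c := q.out⁻¹ * y with hc
  have h2 : y = q.out * c := by rw [hc]; group
  have h3 : g * (q.out * v * q.out⁻¹)⁻¹ ∈ K := by
    have h4 : g * (q.out * v * q.out⁻¹)⁻¹ =
        (g * (y * v * y⁻¹)⁻¹) * (q.out * ⁅c, v⁆ * q.out⁻¹) := by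
      rw [h2, commutatorElement_def]; group
    rw [h4]
    exact K.mul_mem hy ((inferInstance : K.Normal).conj_mem _ (hC c h1) _)
  refine ⟨(q, ⟨_, h3⟩), ?_⟩
  apply Subtype.ext
  show g * (q.out * v * q.out⁻¹)⁻¹ * (q.out * v * q.out⁻¹) = g
  group

end

section

variable {P₁ P₂ : Type} [Group P₁] [Group P₂] [Fintype P₁] [Fintype P₂]
  (e : ConjClasses P₁ ≃ ConjClasses P₂) (f : Irr P₁ ≃ Irr P₂)
  (hef : ∀ (χ : Irr P₁) (g : P₁) (h : P₂), e (ConjClasses.mk g) = ConjClasses.mk h →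
    (f χ).1 h = χ.1 g)

include hef

theorem corr_le_commutator (L : Subgroup P₂) [L.Normal] (hL : L ≤ commutator P₂) :
    corr f L ≤ commutator P₁ := by
  intro g hg
  obtain ⟨h, hgh⟩ := exists_right e g
  exact (comm_iff e f hef g h hgh).mpr (hL ((mem_corr_iff e f hef L g h hgh).mp hg))

/-- one layer, by class sizes -/
theorem layer2 {p : ℕ} [Fact p.Prime] (h₁ : IsPGroup p P₁) (K L C : Subgroup P₂)
    [K.Normal] [L.Normal] (hC : ∀ c ∈ C, ∀ n ∈ L, ⁅c, n⁆ ∈ K) (hL : L ≤ commutator P₂)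
    (k m : ℕ) (hm : C.index ≤ p ^ (m + 1)) (hk : p * m < (p - 1) * (2 ^ (k + 1) - 1)) :
    (derivedSeries (corr f L) (k + 1)).map (corr f L).subtype ≤ corr f K := by
  have hp := (Fact.out : p.Prime)
  set M := corr f L with hM
  set K' := corr f K with hK'
  have hidx : ∀ x : M ⧸ K'.subgroupOf M, (Subgroup.centralizer {x}).index ≤ p ^ m := by
    intro x
    obtain ⟨x, rfl⟩ := QuotientGroup.mk_surjective x
    obtain ⟨v, hv⟩ := exists_right e (x : P₁)
    have hvL : v ∈ L := (mem_corr_iff e f hef L x v hv).mp x.2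
    have h1 : (cm K' (x : P₁)).index ≤ p ^ (m + 1) := by
      have a1 := le_card_mod K' (x : P₁)
      have a2 := card_mod_le K C v (fun c hc => hC c hc v hvL)
      rw [← card_mod e f hef K x v hv, ← card_corr e f hef K] at a2
      have a3 := a1.trans a2
      have a4 : 0 < Nat.card (corr f K) := Nat.card_pos
      exact (Nat.le_of_mul_le_mul_right a3 a4).trans hm
    have h2 : (Subgroup.centralizer {(QuotientGroup.mk x : M ⧸ K'.subgroupOf M)}).index =
        (cm K' (x : P₁)).relIndex M := by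
      rw [← Subgroup.index_comap_of_surjective _ (QuotientGroup.mk'_surjective (K'.subgroupOf M))]
      show _ = ((cm K' (x : P₁)).subgroupOf M).index
      congr 1
      ext y
      have h3 := mem_cm (K'.subgroupOf M) x y
      unfold cm at h3
      rw [h3, Subgroup.mem_subgroupOf, Subgroup.mem_subgroupOf, mem_cm]
      rfl
    rw [h2]
    by_cases htop : cm K' (x : P₁) ⊔ M = ⊤
    · have h3 : cm K' (x : P₁) = ⊤ := by
        apply eq_top_of_sup h₁
        rw [eq_top_iff, ← htop]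
        exact sup_le_sup_left (corr_le_commutator e f hef L hL) _
      rw [h3, Subgroup.relIndex_top_left]
      exact Nat.one_le_pow _ _ hp.pos
    · have h3 := p_le_index h₁ _ htop
      have h4 := Subgroup.relIndex_mul_index (H := cm K' (x : P₁)) (K := cm K' (x : P₁) ⊔ M)
        le_sup_left
      have h5 : (cm K' (x : P₁)).relIndex M ≤ (cm K' (x : P₁)).relIndex (cm K' (x : P₁) ⊔ M) :=
        Subgroup.relIndex_le_of_le_right le_sup_right (relIndex_ne _ _)
      have h6 : (cm K' (x : P₁)).relIndex M * p ≤ p ^ m * p := by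
        calc (cm K' (x : P₁)).relIndex M * p ≤
              (cm K' (x : P₁)).relIndex (cm K' (x : P₁) ⊔ M) * (cm K' (x : P₁) ⊔ M).index :=
              Nat.mul_le_mul h5 h3
          _ = (cm K' (x : P₁)).index := h4
          _ ≤ p ^ (m + 1) := h1
          _ = p ^ m * p := pow_succ p m
      exact Nat.le_of_mul_le_mul_right h6 hp.pos
  have hq : IsPGroup p (M ⧸ K'.subgroupOf M) := (h₁.to_subgroup M).to_quotient _
  have hd := breadth_dl hq m (k + 1) hidx hk
  rintro _ ⟨g, hg, rfl⟩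
  have h1 : (QuotientGroup.mk' (K'.subgroupOf M)) g ∈ derivedSeries (M ⧸ K'.subgroupOf M) (k + 1) :=
    map_derivedSeries_le_derivedSeries (QuotientGroup.mk' (K'.subgroupOf M)) (k + 1)
      (Subgroup.mem_map_of_mem _ hg)
  rw [hd, Subgroup.mem_bot] at h1
  have h2 := (QuotientGroup.eq_one_iff g).mp h1
  exact Subgroup.mem_subgroupOf.mp h2

end

end Pool.Agent.Helper10.CT
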