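import Pool.Agent.Helper10.CT.Layer2

/-!
# Groups of prime power order with the same character table: bounds for the derived length
-/

set_option autoImplicit false

open scoped Classical commutatorElement

namespace Pool.Agent.Helper10.CT

theorem main {p : ℕ} [Fact p.Prime] {P₁ P₂ : Type} [Group P₁] [Group P₂] [Fintype P₁] [Fintype P₂]
    (h₁ : IsPGroup p P₁) (e : ConjClasses P₁ ≃ ConjClasses P₂) (f : Irr P₁ ≃ Irr P₂)
    (hef : ∀ (χ : Irr P₁) (g : P₁) (h : P₂), e (ConjClasses.mk g) = ConjClasses.mk h →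
      (f χ).1 h = χ.1 g)
    (L : ℕ → Subgroup P₂) (k : ℕ → ℕ) (n : ℕ) (hN : ∀ i ≤ n, (L i).Normal)
    (h0 : L 0 = commutator P₂) (hn : L n = ⊥) (hle : ∀ i < n, L (i + 1) ≤ L i)
    (hC : ∀ i < n, ∃ C : Subgroup P₂, (∀ c ∈ C, ∀ x ∈ L i, ⁅c, x⁆ ∈ L (i + 1)) ∧
      (((∀ a ∈ L i, ∀ b ∈ L i, ⁅a, b⁆ ∈ L (i + 1)) ∧ C.index < p ^ (2 * k i + 3)) ∨
        ∃ m : ℕ, C.index ≤ p ^ (m + 1) ∧ p * m < (p - 1) * (2 ^ (k i + 1) - 1))) :
    derivedSeries P₁ (1 + ∑ i ∈ Finset.range n, (k i + 1)) = ⊥ := by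
  have hcomm : ∀ i ≤ n, L i ≤ commutator P₂ := by
    intro i
    induction i with
    | zero => intro _; rw [h0]
    | succ i ih => intro hi; exact (hle i hi).trans (ih (Nat.le_of_succ_le hi))
  have hmain : ∀ i ≤ n, derivedSeries P₁ (1 + ∑ l ∈ Finset.range i, (k l + 1)) ≤
      corr f (L i) := by
    intro i
    induction i with
    | zero =>
      intro _
      rw [Finset.sum_range_zero, add_zero, derivedSeries_one]
      intro g hg
      obtain ⟨h, hgh⟩ := exists_right e g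
      have := hN 0 (Nat.zero_le n)
      rw [mem_corr_iff e f hef (L 0) g h hgh, h0]
      exact (comm_iff e f hef g h hgh).mp hg
    | succ i ih =>
      intro hi
      have h2 := ih (Nat.le_of_succ_le hi)
      have hNi := hN i (Nat.le_of_succ_le hi)
      have hNi' := hN (i + 1) hi
      rw [Finset.sum_range_succ, ← add_assoc]
      refine (derivedSeries_add_le (corr f (L i)) _ h2 (k i + 1)).trans ?_
      obtain ⟨C, hC1, hC2⟩ := hC i hi
      rcases hC2 with ⟨hab, hidx⟩ | ⟨m, hm, hk⟩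
      · exact layer e f hef h₁ (L (i + 1)) (L i) C hab hC1 (hcomm i (Nat.le_of_succ_le hi))
          (k i) hidx
      · exact layer2 e f hef h₁ (L (i + 1)) (L i) C hC1 (hcomm i (Nat.le_of_succ_le hi))
          (k i) m hm hk
  rw [eq_bot_iff]
  refine (hmain n le_rfl).trans ?_
  intro g hg
  obtain ⟨h, hgh⟩ := exists_right e g
  have := hN n le_rfl
  have h2 := (mem_corr_iff e f hef (L n) g h hgh).mp hg
  rw [hn, Subgroup.mem_bot] at h2
  rw [h2, ← e_one e f hef] at hgh
  have h3 := e.injective hgh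
  rw [ConjClasses.mk_eq_mk_iff_isConj, isConj_one_left] at h3
  rw [Subgroup.mem_bot]
  exact h3

end Pool.Agent.Helper10.CT
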