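import Pool.Agent.Helper96.CT.Stmts3

set_option autoImplicit false

/-!
# A tree all of whose branches at `x` are small is not contained in a chain of cliques
-/

namespace Pool.Agent.Helper10.CT

open SimpleGraph Pool.Agent.Helper96.CT

/-- a set `U` of vertices of a connected graph, `x ∉ U`, such that every edge leaving `U` starts at
the vertex `e`, is connected -/
theorem conn_of_gate {W : Type} (T : SimpleGraph W) (hT : T.Connected) (x : W) (U : Set W)
    (hx : x ∉ U) (hne : U.Nonempty)
    (hgate : ∀ u v u' v', u ∈ U → v ∉ U → T.Adj u v → u' ∈ U → v' ∉ U → T.Adj u' v' → u = u') :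
    (T.induce U).Connected := by
  classical
  have key : ∀ (u v : W) (_ : T.Walk u v), v ∉ U → ∀ hu : u ∈ U,
      ∃ e, ∃ he : e ∈ U, (∃ g, g ∉ U ∧ T.Adj e g) ∧ (T.induce U).Reachable ⟨u, hu⟩ ⟨e, he⟩ := by
    intro u v w
    induction w with
    | nil => exact fun h1 h2 => absurd h2 h1
    | @cons a b c hab _ ih =>
      intro hc ha
      by_cases hb : b ∈ U
      · obtain ⟨e, he, hg, hr⟩ := ih hc hb
        have e1 : (T.induce U).Reachable ⟨a, ha⟩ ⟨b, hb⟩ :=
          SimpleGraph.Adj.reachable (by simpa using hab)
        exact ⟨e, he, hg, e1.trans hr⟩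
      · exact ⟨a, ha, ⟨b, hb, hab⟩, Reachable.refl _⟩
  obtain ⟨u0, hu0⟩ := hne
  obtain ⟨w0⟩ := hT.preconnected u0 x
  obtain ⟨e0, he0, ⟨g0, hg0, hadj0⟩, -⟩ := key u0 x w0 hx hu0
  have hall : ∀ v : U, (T.induce U).Reachable v ⟨e0, he0⟩ := by
    rintro ⟨v, hv⟩
    obtain ⟨w⟩ := hT.preconnected v x
    obtain ⟨e, he, ⟨g, hg, hadj⟩, hr⟩ := key v x w hx hv
    have : e = e0 := hgate e g e0 g0 he hg hadj he0 hg0 hadj0
    subst this
    exact hr
  have : Nonempty U := ⟨⟨u0, hu0⟩⟩
  exact SimpleGraph.Connected.mk (fun u v => (hall u).trans (hall v).symm)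

theorem st_NC2 : ∀ (W V : Type) [Fintype W] (T : SimpleGraph W) (F : SimpleGraph V) (a b : ℕ)
    (c : V → ℕ) (x : W), T.Connected → a + 2 * b < Fintype.card W →
    (∀ B : Finset W, x ∉ B → (T.induce (B : Set W)).Connected → B.card ≤ b) → Chain F a c →
    ¬ T.IsContained F := by
  classical
  intro W V _ T F a b c x hT hcard hB hch hcont
  obtain ⟨hfib, hlev, huniq⟩ := hch
  obtain ⟨⟨f, hf⟩⟩ := hcont
  have hfadj : ∀ {u v : W}, T.Adj u v → F.Adj (f u) (f v) := fun h => f.map_rel h
  have hinj : Function.Injective (fun w => f w) := hf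
  let i := c (f x)
  let U : Finset W := Finset.univ.filter (fun w => i < c (f w))
  let L : Finset W := Finset.univ.filter (fun w => c (f w) < i)
  let M : Finset W := Finset.univ.filter (fun w => c (f w) = i)
  have hU : U.card ≤ b := by
    rcases U.eq_empty_or_nonempty with h0 | h0
    · rw [h0]; exact Nat.zero_le _
    · refine hB U (by simp [U, i]) ?_
      refine conn_of_gate T hT x (U : Set W) (by simp [U, i]) (by exact_mod_cast h0) ?_
      intro u v u' v' hu hv huv hu' hv' huv'
      have h1 : i < c (f u) := by simpa [U] using hu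
      have h2 : c (f v) ≤ i := by simpa [U] using hv
      have h3 : i < c (f u') := by simpa [U] using hu'
      have h4 : c (f v') ≤ i := by simpa [U] using hv'
      have e1 := hlev _ _ (hfadj huv)
      have e2 := hlev _ _ (hfadj huv')
      have h5 := huniq (f v) (f u) (f v') (f u') (hfadj huv).symm (hfadj huv').symm
        (by omega) (by omega) (by omega)
      exact hinj h5.2
  have hL : L.card ≤ b := by
    rcases L.eq_empty_or_nonempty with h0 | h0
    · rw [h0]; exact Nat.zero_le _
    · refine hB L (by simp [L, i]) ?_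
      refine conn_of_gate T hT x (L : Set W) (by simp [L, i]) (by exact_mod_cast h0) ?_
      intro u v u' v' hu hv huv hu' hv' huv'
      have h1 : c (f u) < i := by simpa [L] using hu
      have h2 : i ≤ c (f v) := by simpa [L] using hv
      have h3 : c (f u') < i := by simpa [L] using hu'
      have h4 : i ≤ c (f v') := by simpa [L] using hv'
      have e1 := hlev _ _ (hfadj huv)
      have e2 := hlev _ _ (hfadj huv')
      have h5 := huniq (f u) (f v) (f u') (f v') (hfadj huv) (hfadj huv')
        (by omega) (by omega) (by omega)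
      exact hinj h5.1
  have hM : M.card ≤ a := by
    rw [← Finset.card_image_of_injective M hinj]
    refine hfib i _ ?_
    intro y hy
    obtain ⟨w, hw, rfl⟩ := Finset.mem_image.1 hy
    simpa [M] using hw
  have hcov : (Finset.univ : Finset W) ⊆ U ∪ L ∪ M := by
    intro w _
    simp only [Finset.mem_union, U, L, M, Finset.mem_filter, Finset.mem_univ, true_and]
    omega
  have h9 := Finset.card_le_card hcov
  have h10 := Finset.card_union_le (U ∪ L) M
  have h11 := Finset.card_union_le U L
  rw [Finset.card_univ] at h9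
  omega

theorem st_NC : ST_NC := by
  intro W V _ T F a c x hT h3 hB hch
  exact st_NC2 W V T F a a c x hT (by omega) hB hch

end Pool.Agent.Helper10.CT
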