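import Pool.Agent.Helper10.CT.Uni

/-!
# Character tables: orthogonality, and comparison with the category `FDRep`
-/

set_option autoImplicit false

open scoped Classical

namespace Pool.Agent.Helper10.CT

section

variable {G V W : Type} [Group G] [AddCommGroup V] [Module ℂ V]
  [AddCommGroup W] [Module ℂ W]

theorem sim_isIrreducible (ρ : G →* (V →ₗ[ℂ] V)) (h : Sim ρ) :
    Representation.IsIrreducible (k := ℂ) (G := G) (V := V) ρ := by
  obtain ⟨hn, hs⟩ := h
  refine { exists_pair_ne := ⟨⊥, ⊤, ?_⟩, eq_bot_or_eq_top := ?_ }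
  · intro h1
    have h2 := congrArg (fun U : Subrepresentation (A := ℂ) (G := G) (W := V) ρ => U.toSubmodule) h1
    exact bot_ne_top h2
  · intro U
    rcases hs U.toSubmodule (fun g u hu => U.apply_mem_toSubmodule g hu) with h1 | h1
    · left
      exact Subrepresentation.toSubmodule_injective h1
    · right
      exact Subrepresentation.toSubmodule_injective h1

variable [Fintype G] [FiniteDimensional ℂ V] [FiniteDimensional ℂ W]

theorem orth_aux (ρ : G →* (V →ₗ[ℂ] V)) (σ : G →* (W →ₗ[ℂ] W)) (hρ : Sim ρ) (hσ : Sim σ) :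
    ∑ g : G, chr ρ g * chr σ g⁻¹ =
      if Nonempty (Representation.Equiv (A := ℂ) (G := G) (V := W) (W := V) σ ρ) then
        (Fintype.card G : ℂ) else 0 := by
  have i1 := sim_isIrreducible ρ hρ
  have i2 := sim_isIrreducible σ hσ
  have hc : (Nat.card G : ℂ) ≠ 0 := by
    rw [Nat.card_eq_fintype_card]; exact_mod_cast Fintype.card_ne_zero
  have i3 : Invertible (Nat.card G : ℂ) := invertibleOfNonzero hc
  have h := Representation.char_orthonormal (k := ℂ) (G := G) (V := V) (W := W) ρ σ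
  have h1 : ∑ g : G, chr ρ g * chr σ g⁻¹ = ∑ g : G, Representation.character (k := ℂ) (G := G) (V := V) ρ g *
    Representation.character (k := ℂ) (G := G) (V := W) σ g⁻¹ := rfl
  rw [h1]
  rw [inv_mul_eq_iff_eq_mul₀ hc] at h
  rw [h, Nat.card_eq_fintype_card]
  split_ifs <;> simp

theorem orth_self (ρ : G →* (V →ₗ[ℂ] V)) (hρ : Sim ρ) :
    ∑ g : G, chr ρ g * chr ρ g⁻¹ = Fintype.card G := by
  rw [orth_aux ρ ρ hρ hρ, if_pos ⟨Representation.Equiv.refl _⟩]

theorem orth_ne (ρ : G →* (V →ₗ[ℂ] V)) (σ : G →* (W →ₗ[ℂ] W)) (hρ : Sim ρ) (hσ : Sim σ)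
    (h : chr ρ ≠ chr σ) : ∑ g : G, chr ρ g * chr σ g⁻¹ = 0 := by
  rw [orth_aux ρ σ hρ hσ, if_neg]
  rintro ⟨φ⟩
  exact h (Representation.char_iso φ).symm

theorem equiv_of_chr (ρ : G →* (V →ₗ[ℂ] V)) (σ : G →* (W →ₗ[ℂ] W)) (hρ : Sim ρ) (hσ : Sim σ)
    (h : chr ρ = chr σ) : ∃ (L : V →ₗ[ℂ] W) (L' : W →ₗ[ℂ] V), (∀ v, L' (L v) = v) ∧
      (∀ w, L (L' w) = w) ∧ ∀ g v, L (ρ g v) = σ g (L v) := by
  have h1 := orth_aux σ ρ hσ hρ
  rw [← h, orth_self ρ hρ] at h1
  by_cases hne : Nonempty (Representation.Equiv (A := ℂ) (G := G) (V := V) (W := W) ρ σ)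
  · obtain ⟨φ⟩ := hne
    refine ⟨φ.toLinearMap, φ.toLinearEquiv.symm.toLinearMap, fun v => ?_, fun w => ?_,
      fun g v => ?_⟩
    · exact φ.toLinearEquiv.symm_apply_apply v
    · exact φ.toLinearEquiv.apply_symm_apply w
    · exact LinearMap.congr_fun (φ.isIntertwining' g) v
  · rw [if_neg hne] at h1
    exact absurd h1 (by exact_mod_cast Fintype.card_ne_zero)

omit [Fintype G] [FiniteDimensional ℂ V] [FiniteDimensional ℂ W] in
theorem sim_of_comm [Finite G] (ρ : G →* (V →ₗ[ℂ] V)) (hn : Nontrivial V)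
    (h : ∀ T : V →ₗ[ℂ] V, (∀ g, T * ρ g = ρ g * T) → ∃ c : ℂ, T = c • (1 : V →ₗ[ℂ] V)) : Sim ρ := by
  have := Fintype.ofFinite G
  refine ⟨hn, fun U hU => ?_⟩
  obtain ⟨T, hT1, hT2, hT3⟩ := maschke ρ U hU
  obtain ⟨c, hc⟩ := h T hT1
  by_cases h0 : c = 0
  · left
    rw [eq_bot_iff]
    intro u hu
    have := hT3 u hu
    rw [hc, h0] at this
    simp at this
    simp [← this]
  · right
    rw [eq_top_iff]
    intro v _
    have h1 := hT2 v
    rw [hc] at h1
    have h2 := U.smul_mem c⁻¹ h1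
    simpa [smul_smul, inv_mul_cancel₀ h0] using h2

theorem sim_of_norm (ρ : G →* (V →ₗ[ℂ] V))
    (h : ∑ g : G, chr ρ g * chr ρ g⁻¹ = Fintype.card G) : Sim ρ := by
  have hc : (Nat.card G : ℂ) ≠ 0 := by
    rw [Nat.card_eq_fintype_card]; exact_mod_cast Fintype.card_ne_zero
  have i3 : Invertible (Nat.card G : ℂ) := invertibleOfNonzero hc
  have h1 := Representation.card_inv_mul_sum_char_mul_char_eq_finrank (k := ℂ) (G := G)
    (V := V) (W := V) ρ ρ
  have h2 : ∑ g : G, Representation.character (k := ℂ) (G := G) (V := V) ρ g *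
    Representation.character (k := ℂ) (G := G) (V := V) ρ g⁻¹ = Nat.card G := by
    rw [Nat.card_eq_fintype_card]; exact h
  rw [h2, inv_mul_cancel₀ hc] at h1
  have h3 : Module.finrank ℂ (Representation.IntertwiningMap (A := ℂ) (G := G) (V := V) (W := V)
    ρ ρ) = 1 := by exact_mod_cast h1.symm
  have hn : Nontrivial V := by
    by_contra hn
    rw [not_nontrivial_iff_subsingleton] at hn
    have h4 : ∀ g, chr ρ g = 0 := by
      intro g
      unfold chr
      have : ρ g = 0 := by ext v; exact Subsingleton.elim _ _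
      rw [this, map_zero]
    simp only [h4, mul_zero, Finset.sum_const_zero] at h
    exact absurd h.symm (by exact_mod_cast Fintype.card_ne_zero)
  refine sim_of_comm ρ hn fun T hT => ?_
  let one : Representation.IntertwiningMap (A := ℂ) (G := G) (V := V) (W := V) ρ ρ :=
    ⟨LinearMap.id, fun g => by ext v; rfl⟩
  let TT : Representation.IntertwiningMap (A := ℂ) (G := G) (V := V) (W := V) ρ ρ :=
    ⟨T, fun g => hT g⟩
  have hone : one ≠ 0 := by
    intro h0
    obtain ⟨v, hv⟩ := exists_ne (0 : V)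
    apply hv
    have := congrArg (fun f : Representation.IntertwiningMap (A := ℂ) (G := G) (V := V) (W := V) ρ ρ
      => f.toLinearMap v) h0
    exact this
  obtain ⟨c, hc'⟩ := (finrank_eq_one_iff_of_nonzero' one hone).mp h3 TT
  refine ⟨c, ?_⟩
  have := congrArg (fun f : Representation.IntertwiningMap (A := ℂ) (G := G) (V := V) (W := V) ρ ρ
      => f.toLinearMap) hc'
  exact this.symm

end

/-- the set of the irreducible characters (as in the statement of the problem) -/
abbrev Irr (G : Type) [Group G] : Set (G → ℂ) :=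
  {χ : G → ℂ | ∃ V : FDRep ℂ G, CategoryTheory.Simple V ∧ V.character = χ}

theorem mem_Irr_of_sim {G V : Type} [Group G] [Fintype G] [AddCommGroup V] [Module ℂ V]
    [FiniteDimensional ℂ V] (ρ : G →* (V →ₗ[ℂ] V)) (h : Sim ρ) : chr ρ ∈ Irr G := by
  refine ⟨FDRep.of ρ, ?_, rfl⟩
  rw [FDRep.simple_iff_char_is_norm_one, Nat.card_eq_fintype_card]
  exact orth_self ρ h

theorem exists_sim_of_mem_Irr {G : Type} [Group G] [Fintype G] (χ : G → ℂ) (h : χ ∈ Irr G) :
    ∃ (V : Type) (_ : AddCommGroup V) (_ : Module ℂ V) (_ : FiniteDimensional ℂ V)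
      (ρ : G →* (V →ₗ[ℂ] V)), Sim ρ ∧ chr ρ = χ := by
  obtain ⟨V, hV, rfl⟩ := h
  refine ⟨V, inferInstance, inferInstance, inferInstance, V.ρ, ?_, rfl⟩
  rw [FDRep.simple_iff_char_is_norm_one, Nat.card_eq_fintype_card] at hV
  exact sim_of_norm V.ρ hV

end Pool.Agent.Helper10.CT
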