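import Pool.Agent.Helper10.CT.Table

/-!
# Representations of finite p-groups: two lemmas on derived lengths
-/

set_option autoImplicit false

open scoped Classical commutatorElement

namespace Pool.Agent.Helper10.CT

section

variable {p : ℕ} [Fact p.Prime] {H : Type} [Group H] [Finite H]

/-- a chief factor type element: `x` is central modulo `A` -/
theorem exists_central_mod (hH : IsPGroup p H) (N A : Subgroup H) [hN : N.Normal]
    (hA : ¬ N ≤ A) : ∃ x ∈ N, x ∉ A ∧ ∀ g, g * x * g⁻¹ * x⁻¹ ∈ A := by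
  let L : ℕ → Subgroup H := fun n => Nat.rec N (fun _ K => ⁅K, (⊤ : Subgroup H)⁆) n
  have hL0 : L 0 = N := rfl
  have hLs : ∀ n, L (n + 1) = ⁅L n, (⊤ : Subgroup H)⁆ := fun n => rfl
  have hLN : ∀ n, L n ≤ N := by
    intro n
    induction n with
    | zero => exact le_refl _
    | succ n ih =>
      rw [hLs]
      exact (Subgroup.commutator_mono ih le_rfl).trans (Subgroup.commutator_le_left N ⊤)
  have hLl : ∀ n, L n ≤ (⊤ : Subgroup H).lowerCentralSeries n := by
    intro n
    induction n with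
    | zero => exact le_top
    | succ n ih =>
      rw [hLs]
      exact Subgroup.commutator_mono ih le_rfl
  have hnil : Group.IsNilpotent H := hH.isNilpotent
  obtain ⟨c, hc⟩ := Subgroup.nilpotent_iff_lowerCentralSeries.mp hnil
  have hex : ∃ n, L n ≤ A := ⟨c, by
    refine (hLl c).trans ?_
    rw [hc]; exact bot_le⟩
  obtain ⟨k, h1, h2⟩ : ∃ k, ¬ L k ≤ A ∧ L (k + 1) ≤ A := by
    by_contra hcon
    push Not at hcon
    obtain ⟨n, hn⟩ := hex
    have : ∀ m, ¬ L m ≤ A := by
      intro m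
      induction m with
      | zero => exact hA
      | succ m ih => exact hcon m ih
    exact this n hn
  obtain ⟨x, hx, hxA⟩ := SetLike.not_le_iff_exists.mp h1
  refine ⟨x, hLN k hx, hxA, fun g => ?_⟩
  have h3 : ⁅x, g⁆ ∈ A := h2 (Subgroup.commutator_mem_commutator hx (Subgroup.mem_top g))
  have h4 := A.inv_mem h3
  rw [commutatorElement_inv, commutatorElement_def] at h4
  exact h4

end

section

variable {H V : Type} [Group H] [AddCommGroup V] [Module ℂ V]

theorem rho_mul_inv (ρ : H →* (V →ₗ[ℂ] V)) (g : H) : ρ g * ρ g⁻¹ = 1 := by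
  rw [← map_mul, mul_inv_cancel, map_one]

theorem rho_inv_mul (ρ : H →* (V →ₗ[ℂ] V)) (g : H) : ρ g⁻¹ * ρ g = 1 := by
  rw [← map_mul, inv_mul_cancel, map_one]

theorem smul_one_inj [Nontrivial V] (c d : ℂ) (h : c • (1 : V →ₗ[ℂ] V) = d • 1) : c = d := by
  obtain ⟨v, hv⟩ := exists_ne (0 : V)
  have h1 := LinearMap.congr_fun h v
  simp only [LinearMap.smul_apply, Module.End.one_apply] at h1
  exact smul_left_injective ℂ hv h1

/-- the subgroup of the elements which act as scalars -/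
def scl {H V : Type} [Group H] [AddCommGroup V] [Module ℂ V] (ρ : H →* (V →ₗ[ℂ] V)) :
    Subgroup H where
  carrier := {h | ∃ c : ℂ, ρ h = c • (1 : V →ₗ[ℂ] V)}
  one_mem' := ⟨1, by simp⟩
  mul_mem' := by
    rintro a b ⟨c, hc⟩ ⟨d, hd⟩
    exact ⟨c * d, by rw [map_mul, hc, hd, smul_mul_assoc, one_mul, smul_smul]⟩
  inv_mem' := by
    rintro a ⟨c, hc⟩
    by_cases h0 : c = 0
    · refine ⟨0, ?_⟩
      have h1 := rho_mul_inv ρ a
      rw [hc, h0, zero_smul, zero_mul] at h1
      have h2 : ∀ T : V →ₗ[ℂ] V, T = 0 := fun T => by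
        rw [← mul_one T, ← h1, mul_zero]
      rw [h2 (ρ a⁻¹), zero_smul]
    · refine ⟨c⁻¹, ?_⟩
      have h1 := rho_mul_inv ρ a
      rw [hc, smul_mul_assoc, one_mul] at h1
      rw [← h1, smul_smul, inv_mul_cancel₀ h0, one_smul]

theorem mem_scl (ρ : H →* (V →ₗ[ℂ] V)) (h : H) :
    h ∈ scl ρ ↔ ∃ c : ℂ, ρ h = c • (1 : V →ₗ[ℂ] V) := Iff.rfl

/-- the linear character attached to an element which is central modulo scalars -/
theorem exists_alpha [Nontrivial V] (ρ : H →* (V →ₗ[ℂ] V)) (x : H)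
    (hx : ∀ g, g * x * g⁻¹ * x⁻¹ ∈ scl ρ) :
    ∃ α : H →* ℂˣ, ∀ g, ρ (g * x * g⁻¹) = (α g : ℂ) • ρ x := by
  choose c hc using hx
  have hne : ∀ g, c g ≠ 0 := by
    intro g h0
    have h1 := rho_mul_inv ρ (g * x * g⁻¹ * x⁻¹)
    rw [hc g, h0, zero_smul, zero_mul] at h1
    have h2 := smul_one_inj (V := V) 0 1 (by rw [zero_smul, one_smul]; exact h1)
    exact zero_ne_one h2
  have hc2 : ∀ g, ρ (g * x * g⁻¹) = c g • ρ x := by
    intro g
    have h1 : g * x * g⁻¹ = (g * x * g⁻¹ * x⁻¹) * x := by group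
    rw [h1, map_mul, hc g, smul_mul_assoc, one_mul]
  refine ⟨MonoidHom.mk' (fun g => Units.mk0 (c g) (hne g)) ?_, hc2⟩
  intro g h
  apply Units.ext
  show c (g * h) = c g * c h
  have h1 : c (g * h) • ρ x = (c g * c h) • ρ x := by
    rw [← hc2 (g * h)]
    have h2 : g * h * x * (g * h)⁻¹ = g * (h * x * h⁻¹) * g⁻¹ := by group
    rw [h2, map_mul, map_mul, hc2 h, mul_smul_comm, smul_mul_assoc, ← map_mul, ← map_mul, hc2 g,
      smul_smul, mul_comm]
  have h3 := congrArg (fun T => T * ρ x⁻¹) h1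
  simp only [smul_mul_assoc, rho_mul_inv] at h3
  exact smul_one_inj _ _ h3

theorem scalar_finrank_one [FiniteDimensional ℂ V] (ρ : H →* (V →ₗ[ℂ] V)) (hρ : Sim ρ)
    (h : ∀ g, g ∈ scl ρ) : Module.finrank ℂ V = 1 := by
  have := hρ.1
  obtain ⟨v, hv⟩ := exists_ne (0 : V)
  rcases hρ.2 (Submodule.span ℂ {v}) (by
    intro g u hu
    obtain ⟨c, hc⟩ := h g
    rw [hc]
    exact Submodule.smul_mem _ _ hu) with h1 | h1
  · exfalso
    rw [Submodule.span_singleton_eq_bot] at h1
    exact hv h1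
  · rw [← finrank_top ℂ V, ← h1]
    exact finrank_span_singleton hv

/-- Hobby type lemma: an invariant irreducible character of a normal subgroup which is
contained in the derived subgroup of a p-group is linear -/
theorem hobby {p : ℕ} [Fact p.Prime] [Fintype H] [FiniteDimensional ℂ V] (hH : IsPGroup p H)
    (ρ : H →* (V →ₗ[ℂ] V)) (hρ : Sim ρ) (N : Subgroup H) [N.Normal] (hN : N ≤ commutator H)
    (U : Submodule ℂ V) (hU : ∀ n : N, ∀ u ∈ U, rsN N ρ n u ∈ U)
    (hs : Sim (rst (rsN N ρ) U hU)) (hst : stb N (rst (rsN N ρ) U hU) = ⊤) :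
    Module.finrank ℂ U = 1 := by
  by_cases hA : N ≤ scl ρ
  · apply scalar_finrank_one _ hs
    intro n
    obtain ⟨c, hc⟩ := hA n.2
    refine ⟨c, ?_⟩
    ext u
    have h1 := LinearMap.congr_fun hc (u : V)
    exact h1
  · exfalso
    have := hρ.1
    obtain ⟨x, hxN, hxA, hx⟩ := exists_central_mod hH N (scl ρ) hA
    obtain ⟨α, hα⟩ := exists_alpha ρ x hx
    have hαc : ∀ n ∈ N, α n = 1 := fun n hn =>
      Abelianization.commutator_subset_ker α (hN hn)
    set σ := rst (rsN N ρ) U hU with hσ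
    obtain ⟨c, hc⟩ := schur σ hs (σ ⟨x, hxN⟩) (by
      intro n
      have h1 : ρ ((n : H) * x * (n : H)⁻¹) = ρ x := by
        rw [hα n, hαc n n.2]; simp
      ext u
      have h2 := LinearMap.congr_fun h1 (ρ n u)
      have h3 : ρ ((n : H) * x * (n : H)⁻¹) (ρ n u) = ρ n (ρ x u) := by
        rw [← Module.End.mul_apply, ← map_mul, ← Module.End.mul_apply, ← map_mul]
        congr 2
        group
      rw [h3] at h2
      exact h2.symm)
    have hUn := hs.1
    have hc0 : c ≠ 0 := by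
      intro h0
      have h1 := rho_mul_inv σ ⟨x, hxN⟩
      rw [hc, h0, zero_smul, zero_mul] at h1
      exact zero_ne_one (smul_one_inj (V := U) 0 1 (by rw [zero_smul, one_smul]; exact h1))
    have h1 := clifford N ρ hρ U hU ⟨x, hxN⟩
    rw [← hσ] at h1
    have h2 : ∀ g : H, chr (cj N σ g) ⟨x, hxN⟩ = c * Module.finrank ℂ U := by
      intro g
      have h3 : g ∈ stb N σ := by rw [hst]; trivial
      have h4 : chr (cj N σ g) ⟨x, hxN⟩ = chr σ ⟨x, hxN⟩ := h3 ⟨x, hxN⟩
      rw [h4]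
      unfold chr
      rw [hc, map_smul, LinearMap.trace_one, smul_eq_mul]
    rw [Finset.sum_congr rfl fun g _ => h2 g, Finset.sum_const, Finset.card_univ,
      nsmul_eq_mul] at h1
    have hd1 : (Module.finrank ℂ V : ℂ) ≠ 0 := by
      exact_mod_cast (finrank_pos_of_sim ρ hρ).ne'
    have hd2 : (Module.finrank ℂ U : ℂ) ≠ 0 := by
      exact_mod_cast (finrank_pos_of_sim σ hs).ne'
    have hd3 : (Fintype.card H : ℂ) ≠ 0 := by exact_mod_cast Fintype.card_ne_zero
    have hchi : chr ρ x ≠ 0 := by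
      intro h0
      have h5 : (Fintype.card H : ℂ) * Module.finrank ℂ U * chr ρ x = 0 := by rw [h0, mul_zero]
      have h6 : (Module.finrank ℂ V : ℂ) * (Fintype.card H * (c * Module.finrank ℂ U)) = 0 := by
        rw [h1]; exact h5
      have h7 : (Module.finrank ℂ V : ℂ) * (Fintype.card H * (c * Module.finrank ℂ U)) ≠ 0 :=
        mul_ne_zero hd1 (mul_ne_zero hd3 (mul_ne_zero hc0 hd2))
      exact h7 h6
    have hα1 : ∀ g, (α g : ℂ) = 1 := by
      intro g
      have h5 : chr ρ (g * x * g⁻¹) = (α g : ℂ) * chr ρ x := by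
        unfold chr
        rw [hα g, map_smul, smul_eq_mul]
      rw [chr_conj] at h5
      have h6 : (1 : ℂ) * chr ρ x = (α g : ℂ) * chr ρ x := by rw [one_mul]; exact h5
      exact (mul_right_cancel₀ hchi h6).symm
    apply hxA
    obtain ⟨d, hd⟩ := schur ρ hρ (ρ x) (by
      intro g
      have h5 := hα g
      rw [hα1 g, one_smul] at h5
      have h6 : ρ (g * x * g⁻¹) * ρ g = ρ g * ρ x := by
        rw [← map_mul, ← map_mul]
        congr 1
        group
      rw [h5] at h6
      exact h6)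
    exact ⟨d, hd⟩

end

end Pool.Agent.Helper10.CT
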