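import Pool.Agent.Helper10.CT.Tak

/-!
# Character tables: corresponding normal subgroups and classes modulo normal subgroups
-/

set_option autoImplicit false

open scoped Classical commutatorElement

namespace Pool.Agent.Helper10.CT

section

variable {G : Type} [Group G] [Fintype G]

/-- kernels of irreducible characters -/
theorem Irr_ker (χ : G → ℂ) (h : χ ∈ Irr G) :
    ∃ K : Subgroup G, K.Normal ∧ ∀ g, g ∈ K ↔ χ g = χ 1 := by
  obtain ⟨V, _, _, _, ρ, hρ, rfl⟩ := exists_sim_of_mem_Irr χ h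
  refine ⟨ρ.ker, inferInstance, fun g => ?_⟩
  constructor
  · intro hg
    have h1 : ρ g = 1 := hg
    have h2 : ρ 1 = 1 := map_one ρ
    unfold chr
    rw [h1, h2]
  · intro hg
    apply (chr_props ρ g).2.2
    rw [hg, chr_one]

/-- characters separate classes -/
theorem isConj_of_Irr (g x : G) (h : ∀ χ ∈ Irr G, χ g = χ x) : IsConj g x := by
  by_contra hcon
  have h0 := sep (fun t => ∑ y : G, ((if t = y * g * y⁻¹ then 1 else 0) -
    (if t = y * x * y⁻¹ then 1 else 0) : ℂ)) (by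
      intro t z
      refine Fintype.sum_equiv (Equiv.mulLeft z⁻¹) _ _ fun y => ?_
      have e1 : ∀ g : G, z * t * z⁻¹ = y * g * y⁻¹ ↔
          t = (z⁻¹ * y) * g * (z⁻¹ * y)⁻¹ := by
        intro g
        constructor
        · intro h
          have : t = z⁻¹ * (z * t * z⁻¹) * z := by group
          rw [this, h]; group
        · intro h
          rw [h]; group
      have e2 : ∀ g : G, (if z * t * z⁻¹ = y * g * y⁻¹ then (1 : ℂ) else 0) =
          if t = (z⁻¹ * y) * g * (z⁻¹ * y)⁻¹ then 1 else 0 := by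
        intro g
        by_cases h : z * t * z⁻¹ = y * g * y⁻¹
        · rw [if_pos h, if_pos ((e1 g).mp h)]
        · rw [if_neg h, if_neg fun h' => h ((e1 g).mpr h')]
      rw [Equiv.coe_mulLeft, e2 g, e2 x]) (by
      intro χ hχ
      have e1 : ∀ t : G, (∑ y : G, ((if t = y * g * y⁻¹ then 1 else 0) -
          (if t = y * x * y⁻¹ then 1 else 0) : ℂ)) * χ t =
          ∑ y : G, ((if t = y * g * y⁻¹ then χ t else 0) -
          (if t = y * x * y⁻¹ then χ t else 0)) := by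
        intro t
        rw [Finset.sum_mul]
        refine Finset.sum_congr rfl fun y _ => ?_
        split_ifs <;> simp
      rw [Finset.sum_congr rfl fun t _ => e1 t, Finset.sum_comm]
      have e2 : ∀ y : G, ∑ t : G, ((if t = y * g * y⁻¹ then χ t else 0) -
          (if t = y * x * y⁻¹ then χ t else 0)) = 0 := by
        intro y
        rw [Finset.sum_sub_distrib]
        simp only [Finset.sum_ite_eq', Finset.mem_univ, if_true]
        rw [Irr_conj χ hχ, Irr_conj χ hχ, h χ hχ, sub_self]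
      rw [Finset.sum_congr rfl fun y _ => e2 y, Finset.sum_const_zero])
  have h1 := congrFun h0 g
  simp only [Pi.zero_apply, Finset.sum_sub_distrib] at h1
  have h2 : ∀ y : G, (if g = y * x * y⁻¹ then 1 else 0 : ℂ) = 0 := by
    intro y
    rw [if_neg]
    intro h3
    apply hcon
    rw [isConj_iff]
    exact ⟨y⁻¹, by rw [h3]; group⟩
  rw [Finset.sum_congr rfl fun y _ => h2 y, Finset.sum_const_zero, sub_zero] at h1
  have h3 : (∑ y : G, if g = y * g * y⁻¹ then 1 else 0 : ℂ) =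
      ((Finset.univ.filter fun y : G => g = y * g * y⁻¹).card : ℂ) := by
    rw [Finset.sum_ite, Finset.sum_const_zero, add_zero, Finset.sum_const, nsmul_eq_mul, mul_one]
  rw [h3] at h1
  have h4 : 0 < (Finset.univ.filter fun y : G => g = y * g * y⁻¹).card :=
    Finset.card_pos.mpr ⟨1, by simp⟩
  have h5 : (Finset.univ.filter fun y : G => g = y * g * y⁻¹).card = 0 := by exact_mod_cast h1
  omega

/-- inflation of irreducible characters -/
theorem infl_mem (K : Subgroup G) [K.Normal] (χ : G ⧸ K → ℂ) (h : χ ∈ Irr (G ⧸ K)) :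
    (fun g : G => χ (QuotientGroup.mk g)) ∈ Irr G := by
  have : Fintype (G ⧸ K) := Fintype.ofFinite _
  obtain ⟨V, _, _, _, ρ, hρ, rfl⟩ := exists_sim_of_mem_Irr χ h
  have hs : Sim (ρ.comp (QuotientGroup.mk' K)) := by
    refine ⟨hρ.1, fun U hU => hρ.2 U fun g u hu => ?_⟩
    obtain ⟨g, rfl⟩ := QuotientGroup.mk_surjective g
    exact hU g u hu
  exact mem_Irr_of_sim (ρ.comp (QuotientGroup.mk' K)) hs

/-- an element outside a normal subgroup is detected by a character with the subgroup in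
its kernel -/
theorem mem_of_Irr (K : Subgroup G) [K.Normal] (g : G)
    (h : ∀ χ ∈ Irr G, (∀ k ∈ K, χ k = χ 1) → χ g = χ 1) : g ∈ K := by
  have : Fintype (G ⧸ K) := Fintype.ofFinite _
  have h1 : IsConj (QuotientGroup.mk g : G ⧸ K) 1 := by
    apply isConj_of_Irr
    intro χ hχ
    have h2 := h _ (infl_mem K χ hχ) (by
      intro k hk
      have h3 : (QuotientGroup.mk k : G ⧸ K) = QuotientGroup.mk 1 := by
        rw [QuotientGroup.mk_one]
        exact (QuotientGroup.eq_one_iff k).mpr hk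
      show χ (QuotientGroup.mk k) = χ (QuotientGroup.mk 1)
      rw [h3])
    have h4 : χ (QuotientGroup.mk g) = χ (QuotientGroup.mk 1) := h2
    rw [h4, QuotientGroup.mk_one]
  rw [isConj_one_left] at h1
  exact (QuotientGroup.eq_one_iff g).mp h1

/-- classes modulo a normal subgroup are detected by the characters with the subgroup in
the kernel -/
theorem conj_mod_of_Irr (K : Subgroup G) [K.Normal] (g x : G)
    (h : ∀ χ ∈ Irr G, (∀ k ∈ K, χ k = χ 1) → χ g = χ x) :
    ∃ y : G, g * (y * x * y⁻¹)⁻¹ ∈ K := by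
  have : Fintype (G ⧸ K) := Fintype.ofFinite _
  have h1 : IsConj (QuotientGroup.mk x : G ⧸ K) (QuotientGroup.mk g) := by
    apply isConj_of_Irr
    intro χ hχ
    exact (h _ (infl_mem K χ hχ) (by
      intro k hk
      have h3 : (QuotientGroup.mk k : G ⧸ K) = QuotientGroup.mk 1 := by
        rw [QuotientGroup.mk_one]
        exact (QuotientGroup.eq_one_iff k).mpr hk
      show χ (QuotientGroup.mk k) = χ (QuotientGroup.mk 1)
      rw [h3])).symm
  rw [isConj_iff] at h1
  obtain ⟨c, hc⟩ := h1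
  obtain ⟨y, rfl⟩ := QuotientGroup.mk_surjective c
  refine ⟨y, ?_⟩
  rw [← QuotientGroup.eq_one_iff]
  have h2 : (QuotientGroup.mk (g * (y * x * y⁻¹)⁻¹) : G ⧸ K) =
      QuotientGroup.mk g * (QuotientGroup.mk y * QuotientGroup.mk x *
        (QuotientGroup.mk y)⁻¹)⁻¹ := rfl
  rw [h2, hc, mul_inv_cancel]

theorem Irr_conj_mod (K : Subgroup G) (g x y : G) (χ : G → ℂ) (hχ : χ ∈ Irr G)
    (hK : ∀ k ∈ K, χ k = χ 1) (h : g * (y * x * y⁻¹)⁻¹ ∈ K) : χ g = χ x := by
  obtain ⟨V, _, _, _, ρ, hρ, rfl⟩ := exists_sim_of_mem_Irr χ hχ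
  have h1 : ρ (g * (y * x * y⁻¹)⁻¹) = 1 := by
    apply (chr_props ρ _).2.2
    rw [hK _ h, chr_one]
  have h2 : ρ g = ρ (y * x * y⁻¹) := by
    have e1 : g = (g * (y * x * y⁻¹)⁻¹) * (y * x * y⁻¹) := by group
    rw [e1, map_mul, h1, one_mul]
  have h3 : chr ρ g = chr ρ (y * x * y⁻¹) := by
    unfold chr
    rw [h2]
  rw [h3, chr_conj]

end

section

variable {P₁ P₂ : Type} [Group P₁] [Group P₂] [Fintype P₁] [Fintype P₂]

/-- the normal subgroup of `P₁` which corresponds to a normal subgroup of `P₂` -/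
def corr (f : Irr P₁ ≃ Irr P₂) (L : Subgroup P₂) : Subgroup P₁ where
  carrier := {g | ∀ χ : Irr P₁, (∀ h ∈ L, (f χ).1 h = (f χ).1 1) → χ.1 g = χ.1 1}
  one_mem' := fun _ _ => rfl
  mul_mem' := by
    intro a b ha hb χ hχ
    obtain ⟨K, -, hK⟩ := Irr_ker χ.1 χ.2
    exact (hK _).mp (K.mul_mem ((hK a).mpr (ha χ hχ)) ((hK b).mpr (hb χ hχ)))
  inv_mem' := by
    intro a ha χ hχ
    obtain ⟨K, -, hK⟩ := Irr_ker χ.1 χ.2
    exact (hK _).mp (K.inv_mem ((hK a).mpr (ha χ hχ)))

instance corr_normal (f : Irr P₁ ≃ Irr P₂) (L : Subgroup P₂) : (corr f L).Normal where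
  conj_mem := by
    intro n hn g χ hχ
    rw [Irr_conj χ.1 χ.2]
    exact hn χ hχ

variable (e : ConjClasses P₁ ≃ ConjClasses P₂) (f : Irr P₁ ≃ Irr P₂)
  (hef : ∀ (χ : Irr P₁) (g : P₁) (h : P₂), e (ConjClasses.mk g) = ConjClasses.mk h →
    (f χ).1 h = χ.1 g)

include hef

theorem mem_corr_iff (L : Subgroup P₂) [L.Normal] (g : P₁) (h : P₂)
    (hgh : e (ConjClasses.mk g) = ConjClasses.mk h) : g ∈ corr f L ↔ h ∈ L := by
  constructor
  · intro hg
    apply mem_of_Irr
    intro ψ hψ hL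
    obtain ⟨χ, hχ⟩ := f.surjective ⟨ψ, hψ⟩
    have h1 := hg χ (by rw [hχ]; exact hL)
    rw [← f_one e f hef χ, ← hef χ g h hgh, hχ] at h1
    exact h1
  · intro hh χ hχ
    rw [← hef χ g h hgh, ← f_one e f hef χ]
    exact hχ h hh

omit hef [Fintype P₁] [Fintype P₂] in
theorem exists_left (h : P₂) : ∃ g : P₁, e (ConjClasses.mk g) = ConjClasses.mk h := by
  obtain ⟨g, hg⟩ := ConjClasses.exists_rep (e.symm (ConjClasses.mk h))
  exact ⟨g, by rw [hg]; exact e.apply_symm_apply _⟩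

omit hef [Fintype P₁] [Fintype P₂] in
theorem exists_right (g : P₁) : ∃ h : P₂, e (ConjClasses.mk g) = ConjClasses.mk h := by
  obtain ⟨h, hh⟩ := ConjClasses.exists_rep (e (ConjClasses.mk g))
  exact ⟨h, hh.symm⟩

/-- counting of table-visible sets -/
theorem card_transfer (S : Set P₁) (T : Set P₂)
    (hST : ∀ g h, e (ConjClasses.mk g) = ConjClasses.mk h → (g ∈ S ↔ h ∈ T)) :
    Nat.card S = Nat.card T := by
  have h := sum_transfer e f hef (fun g => if g ∈ S then 1 else 0)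
    (fun h => if h ∈ T then 1 else 0) (by
      intro g h hgh
      simp only [hST g h hgh])
  rw [← Finset.sum_filter, ← Finset.sum_filter] at h
  simp only [Finset.sum_const, nsmul_eq_mul, mul_one, Nat.cast_inj] at h
  rw [Nat.card_eq_fintype_card, Nat.card_eq_fintype_card, Fintype.card_subtype,
    Fintype.card_subtype]
  exact h

theorem card_corr (L : Subgroup P₂) [L.Normal] : Nat.card (corr f L) = Nat.card L :=
  card_transfer e f hef (corr f L : Set P₁) (L : Set P₂)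
    fun g h hgh => mem_corr_iff e f hef L g h hgh

/-- the norms of the restrictions to corresponding normal subgroups agree -/
theorem norm_corr (L : Subgroup P₂) [L.Normal] (χ : Irr P₁) :
    ∑ n : corr f L, χ.1 n * χ.1 (n⁻¹ : corr f L) = ∑ n : L, (f χ).1 n * (f χ).1 (n⁻¹ : L) := by
  have hs1 : ∀ (G : Type) [Group G] [Fintype G] (N : Subgroup G) (ψ : G → ℂ), ψ ∈ Irr G →
      ∑ n : N, ψ n * ψ (n⁻¹ : N) = ∑ g : G, if g ∈ N then ψ g * star (ψ g) else 0 := by
    intro G _ _ N ψ hψ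
    rw [← Finset.sum_filter]
    symm
    refine Finset.sum_bij' (fun g hg => (⟨g, (Finset.mem_filter.mp hg).2⟩ : N))
      (fun n _ => (n : G)) (fun _ _ => Finset.mem_univ _) (fun n _ => by simp)
      (fun _ _ => rfl) (fun _ _ => rfl) fun g _ => ?_
    obtain ⟨V, _, _, _, ρ, -, rfl⟩ := exists_sim_of_mem_Irr ψ hψ
    rw [← (chr_props ρ g).1]
    rfl
  rw [hs1 P₁ _ _ χ.2, hs1 P₂ _ _ (f χ).2]
  apply sum_transfer e f hef
  intro g h hgh
  have h1 := mem_corr_iff e f hef L g h hgh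
  by_cases hh : h ∈ L
  · rw [if_pos hh, if_pos (h1.mpr hh), hef χ g h hgh]
  · rw [if_neg hh, if_neg fun h2 => hh (h1.mp h2)]

/-- the elements conjugate to `x` modulo corresponding normal subgroups -/
theorem card_mod (K : Subgroup P₂) [K.Normal] (x : P₁) (v : P₂)
    (hxv : e (ConjClasses.mk x) = ConjClasses.mk v) :
    Nat.card {g : P₁ | ∃ y : P₁, g * (y * x * y⁻¹)⁻¹ ∈ corr f K} =
      Nat.card {h : P₂ | ∃ y : P₂, h * (y * v * y⁻¹)⁻¹ ∈ K} := by
  apply card_transfer e f hef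
  intro g h hgh
  have k1 : ∀ χ : Irr P₁, (∀ k ∈ corr f K, χ.1 k = χ.1 1) → ∀ k ∈ K, (f χ).1 k = (f χ).1 1 := by
    intro χ hχ k hk
    obtain ⟨l, hl⟩ := exists_left e k
    rw [hef χ l k hl, f_one e f hef χ]
    exact hχ l ((mem_corr_iff e f hef K l k hl).mpr hk)
  have k2 : ∀ χ : Irr P₁, (∀ k ∈ K, (f χ).1 k = (f χ).1 1) → ∀ k ∈ corr f K, χ.1 k = χ.1 1 := by
    intro χ hχ k hk
    exact hk χ hχ
  constructor
  · rintro ⟨y, hy⟩
    apply conj_mod_of_Irr
    intro ψ hψ hK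
    obtain ⟨χ, hχ⟩ := f.surjective ⟨ψ, hψ⟩
    have h1 := Irr_conj_mod (corr f K) g x y χ.1 χ.2 (k2 χ (by rw [hχ]; exact hK)) hy
    rw [← hef χ g h hgh, ← hef χ x v hxv, hχ] at h1
    exact h1
  · rintro ⟨y, hy⟩
    apply conj_mod_of_Irr
    intro χ hχ hK
    have h1 := Irr_conj_mod K h v y (f ⟨χ, hχ⟩).1 (f ⟨χ, hχ⟩).2 (k1 ⟨χ, hχ⟩ hK) hy
    rw [hef ⟨χ, hχ⟩ g h hgh, hef ⟨χ, hχ⟩ x v hxv] at h1
    exact h1

end

end Pool.Agent.Helper10.CT
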