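import Mathlib

/-!
# Character tables: representations of finite groups over the complex numbers
-/

set_option autoImplicit false

open scoped Classical

namespace Pool.Agent.Helper10.CT

/-- irreducible representations -/
def Sim {G V : Type} [Group G] [AddCommGroup V] [Module ℂ V] (ρ : G →* (V →ₗ[ℂ] V)) : Prop :=
  Nontrivial V ∧ ∀ U : Submodule ℂ V, (∀ g, ∀ u ∈ U, ρ g u ∈ U) → U = ⊥ ∨ U = ⊤

/-- the restriction of a representation to an invariant subspace -/
def rst {G V : Type} [Group G] [AddCommGroup V] [Module ℂ V] (ρ : G →* (V →ₗ[ℂ] V))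
    (U : Submodule ℂ V) (hU : ∀ g, ∀ u ∈ U, ρ g u ∈ U) : G →* (U →ₗ[ℂ] U) where
  toFun g := (ρ g).restrict (hU g)
  map_one' := by ext; simp
  map_mul' x y := by ext; simp

section

variable {G V : Type} [Group G] [AddCommGroup V] [Module ℂ V]

theorem rst_apply (ρ : G →* (V →ₗ[ℂ] V)) (U : Submodule ℂ V) (hU : ∀ g, ∀ u ∈ U, ρ g u ∈ U)
    (g : G) (u : U) : ((rst ρ U hU g u : U) : V) = ρ g u := rfl

/-- Schur's lemma -/
theorem schur [FiniteDimensional ℂ V] (ρ : G →* (V →ₗ[ℂ] V)) (hρ : Sim ρ) (T : V →ₗ[ℂ] V)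
    (hT : ∀ g, T * ρ g = ρ g * T) : ∃ c : ℂ, T = c • (1 : V →ₗ[ℂ] V) := by
  have := hρ.1
  obtain ⟨c, hc⟩ := Module.End.exists_eigenvalue T
  refine ⟨c, ?_⟩
  have h1 : ∀ g, ∀ u ∈ LinearMap.ker (T - c • (1 : V →ₗ[ℂ] V)),
      ρ g u ∈ LinearMap.ker (T - c • (1 : V →ₗ[ℂ] V)) := by
    intro g u hu
    rw [LinearMap.mem_ker] at hu ⊢
    have h2 : T u = c • u := by
      simpa [sub_eq_zero] using hu
    have h3 : T (ρ g u) = ρ g (T u) := LinearMap.congr_fun (hT g) u
    simp [h3, h2]
  rcases hρ.2 _ h1 with h | h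
  · exfalso
    obtain ⟨v, hv1, hv2⟩ := hc.exists_hasEigenvector
    apply hv2
    have h4 : v ∈ LinearMap.ker (T - c • (1 : V →ₗ[ℂ] V)) := by
      rw [LinearMap.mem_ker]
      have := Module.End.mem_eigenspace_iff.mp hv1
      simp [this]
    rw [h] at h4
    exact h4
  · ext v
    have h4 : v ∈ LinearMap.ker (T - c • (1 : V →ₗ[ℂ] V)) := by rw [h]; trivial
    rw [LinearMap.mem_ker] at h4
    simpa [sub_eq_zero] using h4

/-- Maschke's theorem: an equivariant projection to an invariant subspace -/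
theorem maschke [Fintype G] (ρ : G →* (V →ₗ[ℂ] V)) (U : Submodule ℂ V)
    (hU : ∀ g, ∀ u ∈ U, ρ g u ∈ U) : ∃ T : V →ₗ[ℂ] V, (∀ g, T * ρ g = ρ g * T) ∧
      (∀ v, T v ∈ U) ∧ ∀ u ∈ U, T u = u := by
  obtain ⟨π, hπ⟩ := Submodule.exists_isCompl U
  let π0 : V →ₗ[ℂ] V := U.subtype ∘ₗ U.projectionOnto π hπ
  have hπ1 : ∀ v, π0 v ∈ U := fun v => (U.projectionOnto π hπ v).2
  have hπ2 : ∀ u ∈ U, π0 u = u := by
    intro u hu
    show ((U.projectionOnto π hπ u : U) : V) = u
    rw [Submodule.projectionOnto_apply_left hπ ⟨u, hu⟩]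
  refine ⟨(Fintype.card G : ℂ)⁻¹ • ∑ g : G, ρ g * π0 * ρ g⁻¹, ?_, ?_, ?_⟩
  · intro h
    rw [smul_mul_assoc, mul_smul_comm, Finset.sum_mul, Finset.mul_sum]
    congr 1
    refine Fintype.sum_equiv (Equiv.mulLeft h⁻¹) _ _ fun g => ?_
    have e1 : ρ (h⁻¹ * g) = ρ h⁻¹ * ρ g := map_mul ρ _ _
    have e2 : ρ (h⁻¹ * g)⁻¹ = ρ g⁻¹ * ρ h := by rw [mul_inv_rev, inv_inv, map_mul]
    have e3 : ρ h * ρ h⁻¹ = 1 := by rw [← map_mul, mul_inv_cancel, map_one]
    show ρ g * π0 * ρ g⁻¹ * ρ h = ρ h * (ρ (h⁻¹ * g) * π0 * ρ (h⁻¹ * g)⁻¹)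
    rw [e1, e2]
    calc ρ g * π0 * ρ g⁻¹ * ρ h = (ρ h * ρ h⁻¹) * ρ g * π0 * ρ g⁻¹ * ρ h := by rw [e3, one_mul]
      _ = _ := by noncomm_ring
  · intro v
    rw [LinearMap.smul_apply, LinearMap.sum_apply]
    exact U.smul_mem _ (U.sum_mem fun g _ => hU g _ (hπ1 _))
  · intro u hu
    rw [LinearMap.smul_apply, LinearMap.sum_apply]
    have h1 : ∀ g : G, (ρ g * π0 * ρ g⁻¹) u = u := by
      intro g
      show ρ g (π0 (ρ g⁻¹ u)) = u
      rw [hπ2 _ (hU _ _ hu), ← Module.End.mul_apply, ← map_mul, mul_inv_cancel, map_one]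
      rfl
    rw [Finset.sum_congr rfl fun g _ => h1 g, Finset.sum_const, Finset.card_univ,
      ← Nat.cast_smul_eq_nsmul ℂ, smul_smul, inv_mul_cancel₀, one_smul]
    exact_mod_cast Fintype.card_ne_zero

/-- reduction to irreducible representations -/
theorem all_of_sim [Fintype G] (a : G → ℂ)
    (h : ∀ (V : Type) [AddCommGroup V] [Module ℂ V] [FiniteDimensional ℂ V]
      (ρ : G →* (V →ₗ[ℂ] V)), Sim ρ → ∑ g, a g • ρ g = 0) :
    ∀ (n : ℕ) (V : Type) [AddCommGroup V] [Module ℂ V] [FiniteDimensional ℂ V]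
      (ρ : G →* (V →ₗ[ℂ] V)), Module.finrank ℂ V = n → ∑ g, a g • ρ g = 0 := by
  intro n
  induction n using Nat.strong_induction_on with
  | _ n ih =>
    intro V _ _ _ ρ hn
    by_cases hs : Sim ρ
    · exact h V ρ hs
    · by_cases hnt : Nontrivial V
      · have h1 : ∃ U : Submodule ℂ V, (∀ g, ∀ u ∈ U, ρ g u ∈ U) ∧ U ≠ ⊥ ∧ U ≠ ⊤ := by
          by_contra hc
          apply hs
          refine ⟨hnt, fun U hU => ?_⟩
          by_contra h2
          rw [not_or] at h2
          exact hc ⟨U, hU, h2.1, h2.2⟩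
        obtain ⟨U, hU, hb, ht⟩ := h1
        obtain ⟨T, hT1, hT2, hT3⟩ := maschke ρ U hU
        -- the complement
        have hK : ∀ g, ∀ u ∈ LinearMap.ker T, ρ g u ∈ LinearMap.ker T := by
          intro g u hu
          rw [LinearMap.mem_ker] at hu ⊢
          have : T (ρ g u) = ρ g (T u) := LinearMap.congr_fun (hT1 g) u
          rw [this, hu, map_zero]
        have hUf : Module.finrank ℂ U < n := by
          rw [← hn]; exact Submodule.finrank_lt ht
        have hKf : Module.finrank ℂ (LinearMap.ker T) < n := by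
          rw [← hn]
          refine Submodule.finrank_lt fun hk => hb ?_
          rw [eq_bot_iff]
          intro u hu
          have : u ∈ LinearMap.ker T := by rw [hk]; trivial
          rw [LinearMap.mem_ker, hT3 u hu] at this
          simpa using this
        have hz : ∀ (U' : Submodule ℂ V) (hU' : ∀ g, ∀ u ∈ U', ρ g u ∈ U'),
            Module.finrank ℂ U' < n → ∀ u ∈ U', (∑ g, a g • ρ g) u = 0 := by
          intro U' hU' hlt u hu
          have h2 := ih _ hlt U' (rst ρ U' hU') rfl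
          have h3 := congrArg (fun f => ((f (⟨u, hu⟩ : U') : U') : V)) h2
          simp only [LinearMap.sum_apply, LinearMap.smul_apply, LinearMap.zero_apply,
            ZeroMemClass.coe_zero] at h3
          rw [LinearMap.sum_apply]
          rw [← h3]
          push_cast
          rfl
        ext v
        have hv : v = T v + (v - T v) := by abel
        have h4 : v - T v ∈ LinearMap.ker T := by
          rw [LinearMap.mem_ker, map_sub, hT3 _ (hT2 v), sub_self]
        rw [hv, map_add, hz U hU hUf _ (hT2 v), hz _ hK hKf _ h4]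
        simp
      · rw [not_nontrivial_iff_subsingleton] at hnt
        ext v
        exact Subsingleton.elim _ _

/-- the left regular representation -/
def reg (G : Type) [Group G] : G →* ((G → ℂ) →ₗ[ℂ] (G → ℂ)) where
  toFun g :=
    { toFun := fun f x => f (g⁻¹ * x)
      map_add' := fun f f' => rfl
      map_smul' := fun c f => rfl }
  map_one' := by ext f x; simp
  map_mul' g h := by ext f x; simp [mul_assoc]

/-- a combination of group elements which is zero in all irreducible representations is zero -/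
theorem eq_zero_of_sim [Fintype G] (a : G → ℂ)
    (h : ∀ (V : Type) [AddCommGroup V] [Module ℂ V] [FiniteDimensional ℂ V]
      (ρ : G →* (V →ₗ[ℂ] V)), Sim ρ → ∑ g, a g • ρ g = 0) : a = 0 := by
  have h1 := all_of_sim a h _ (G → ℂ) (reg G) rfl
  funext x
  have h2 := congrArg (fun f : (G → ℂ) →ₗ[ℂ] (G → ℂ) => f (Pi.single 1 1) x) h1
  simp only [LinearMap.sum_apply, LinearMap.smul_apply, LinearMap.zero_apply,
    Finset.sum_apply, Pi.smul_apply, Pi.zero_apply] at h2
  rw [Finset.sum_eq_single x] at h2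
  · simpa [reg] using h2
  · intro g _ hg
    have : g⁻¹ * x ≠ 1 := fun h3 => hg (by rw [inv_mul_eq_one] at h3; exact h3)
    simp [reg, Pi.single_apply, this]
  · simp

/-- an element which acts trivially in all irreducible representations is trivial -/
theorem eq_one_of_sim [Fintype G] (x : G)
    (h : ∀ (V : Type) [AddCommGroup V] [Module ℂ V] [FiniteDimensional ℂ V]
      (ρ : G →* (V →ₗ[ℂ] V)), Sim ρ → ρ x = 1) : x = 1 := by
  have h1 := eq_zero_of_sim (fun g : G => (if g = x then 1 else 0) - (if g = 1 then 1 else 0) : G → ℂ)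
    (by
      intro V _ _ _ ρ hρ
      simp only [sub_smul, Finset.sum_sub_distrib, ite_smul, one_smul, zero_smul,
        Finset.sum_ite_eq', Finset.mem_univ, if_true]
      rw [h V ρ hρ, map_one, sub_self])
  by_contra hx
  have := congrFun h1 x
  simp [hx] at this

end

end Pool.Agent.Helper10.CT
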