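import Pool.Agent.Helper10.CT.Cliff

/-!
# Character tables: what the table determines
-/

set_option autoImplicit false

open scoped Classical commutatorElement

namespace Pool.Agent.Helper10.CT

section

variable {G : Type} [Group G]

theorem sim_of_finrank_one {V : Type} [AddCommGroup V] [Module ℂ V] (ρ : G →* (V →ₗ[ℂ] V))
    (h : Module.finrank ℂ V = 1) : Sim ρ := by
  have hf : FiniteDimensional ℂ V := FiniteDimensional.of_finrank_eq_succ h
  have hn : Nontrivial V := Module.nontrivial_of_finrank_eq_succ h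
  refine ⟨hn, fun U _ => ?_⟩
  by_cases h0 : U = ⊥
  · exact Or.inl h0
  · right
    have h1 : 0 < Module.finrank ℂ U := by
      have := Submodule.nontrivial_iff_ne_bot.mpr h0
      exact Module.finrank_pos
    apply Submodule.eq_top_of_finrank_eq
    have h2 := Submodule.finrank_le U
    omega

/-- a linear character as a representation -/
def lin {G : Type} [Group G] (l : G →* ℂˣ) : G →* (ℂ →ₗ[ℂ] ℂ) where
  toFun g := (l g : ℂ) • 1
  map_one' := by simp
  map_mul' x y := by
    ext
    simp [mul_comm]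

theorem chr_lin (l : G →* ℂˣ) (g : G) : chr (lin l) g = l g := by
  show LinearMap.trace ℂ ℂ ((l g : ℂ) • (1 : ℂ →ₗ[ℂ] ℂ)) = l g
  rw [map_smul, LinearMap.trace_one, Module.finrank_self]
  simp

theorem lin_mem [Fintype G] (l : G →* ℂˣ) : (fun g => (l g : ℂ)) ∈ Irr G := by
  have h := mem_Irr_of_sim (lin l) (sim_of_finrank_one (lin l) (Module.finrank_self ℂ))
  have h2 : chr (lin l) = fun g => (l g : ℂ) := funext fun g => chr_lin l g
  rwa [h2] at h

/-- the trivial character -/
theorem one_mem_Irr [Fintype G] : (fun _ => 1 : G → ℂ) ∈ Irr G := by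
  have h := lin_mem (1 : G →* ℂˣ)
  simpa using h

variable [Fintype G]

theorem Irr_conj (χ : G → ℂ) (h : χ ∈ Irr G) (g x : G) : χ (x * g * x⁻¹) = χ g := by
  obtain ⟨V, _, _, _, ρ, -, rfl⟩ := exists_sim_of_mem_Irr χ h
  exact chr_conj ρ g x

theorem Irr_congr (χ : G → ℂ) (h : χ ∈ Irr G) (g g' : G)
    (hg : ConjClasses.mk g = ConjClasses.mk g') : χ g = χ g' := by
  rw [ConjClasses.mk_eq_mk_iff_isConj, isConj_iff] at hg
  obtain ⟨c, rfl⟩ := hg
  exact (Irr_conj χ h g c).symm

/-- class functions are separated by the irreducible characters -/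
theorem sep (a : G → ℂ) (ha : ∀ g x, a (x * g * x⁻¹) = a g)
    (h : ∀ χ ∈ Irr G, ∑ g, a g * χ g = 0) : a = 0 := by
  apply eq_zero_of_sim
  intro V _ _ _ ρ hρ
  have hcomm : ∀ x, (∑ g, a g • ρ g) * ρ x = ρ x * ∑ g, a g • ρ g := by
    intro x
    rw [Finset.sum_mul, Finset.mul_sum]
    refine Fintype.sum_equiv (MulAut.conj x⁻¹).toEquiv _ _ fun g => ?_
    have e1 : (MulAut.conj x⁻¹).toEquiv g = x⁻¹ * g * x := by
      show x⁻¹ * g * x⁻¹⁻¹ = _
      rw [inv_inv]
    rw [e1]
    have e2 : a (x⁻¹ * g * x) = a g := by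
      have := ha g x⁻¹
      rwa [inv_inv] at this
    rw [e2, smul_mul_assoc, mul_smul_comm, ← map_mul, ← map_mul]
    congr 2
    group
  obtain ⟨c, hc⟩ := schur ρ hρ _ hcomm
  have h1 := h (chr ρ) (mem_Irr_of_sim ρ hρ)
  have h2 : LinearMap.trace ℂ V (∑ g, a g • ρ g) = ∑ g, a g * chr ρ g := by
    rw [map_sum]
    exact Finset.sum_congr rfl fun g _ => by rw [map_smul]; rfl
  rw [h1, hc, map_smul, LinearMap.trace_one, smul_eq_mul] at h2
  have h3 : (Module.finrank ℂ V : ℂ) ≠ 0 := by
    exact_mod_cast (finrank_pos_of_sim ρ hρ).ne'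
  have h4 : c = 0 := by
    rcases mul_eq_zero.mp h2 with h | h
    · exact h
    · exact absurd h h3
  rw [hc, h4, zero_smul]

theorem sum_Irr (χ : G → ℂ) (h : χ ∈ Irr G) (h1 : χ ≠ fun _ => 1) : ∑ g, χ g = 0 := by
  obtain ⟨V, _, _, _, ρ, hρ, rfl⟩ := exists_sim_of_mem_Irr χ h
  have h2 : chr (lin (1 : G →* ℂˣ)) = fun _ => 1 := by
    funext g
    rw [chr_lin]; rfl
  have h3 := orth_ne ρ (lin (1 : G →* ℂˣ)) hρ
    (sim_of_finrank_one _ (Module.finrank_self ℂ)) (by rw [h2]; exact h1)
  rw [h2] at h3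
  simpa using h3

/-- membership in the commutator subgroup is read off the linear characters -/
theorem mem_commutator_iff (g : G) :
    g ∈ commutator G ↔ ∀ χ ∈ Irr G, χ 1 = 1 → χ g = 1 := by
  constructor
  · intro hg χ hχ h1
    obtain ⟨V, _, _, _, ρ, hρ, rfl⟩ := exists_sim_of_mem_Irr χ hχ
    rw [chr_one] at h1
    have hf : Module.finrank ℂ V = 1 := by exact_mod_cast h1
    have hsc : ∀ T : V →ₗ[ℂ] V, ∃ c : ℂ, T = c • (1 : V →ₗ[ℂ] V) := by
      intro T
      obtain ⟨v, hv, hv2⟩ := (finrank_eq_one_iff' (K := ℂ) (V := V)).mp hf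
      obtain ⟨c, hc⟩ := hv2 (T v)
      refine ⟨c, ?_⟩
      ext w
      obtain ⟨d, rfl⟩ := hv2 w
      simp only [map_smul, LinearMap.smul_apply, Module.End.one_apply]
      rw [← hc, smul_comm]
    have hle : commutator G ≤ ρ.ker := by
      rw [commutator_def, Subgroup.commutator_le]
      intro x _ y _
      rw [MonoidHom.mem_ker]
      obtain ⟨c, hc⟩ := hsc (ρ x)
      have hxy : ρ x * ρ y = ρ y * ρ x := by
        rw [hc, smul_mul_assoc, mul_smul_comm, one_mul, mul_one]
      have e1 : ρ ⁅x, y⁆ = ρ x * ρ y * ρ x⁻¹ * ρ y⁻¹ := by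
        rw [commutatorElement_def, map_mul, map_mul, map_mul]
      have e2 : ρ x * ρ x⁻¹ = 1 := by rw [← map_mul, mul_inv_cancel, map_one]
      have e3 : ρ y * ρ y⁻¹ = 1 := by rw [← map_mul, mul_inv_cancel, map_one]
      rw [e1, hxy, mul_assoc (ρ y), e2, mul_one, e3]
    have h2 : ρ g = 1 := hle hg
    unfold chr
    rw [h2, LinearMap.trace_one, hf, Nat.cast_one]
  · intro h
    by_contra hg
    have h1 : (Abelianization.of g : Abelianization G) ≠ 1 := by
      intro h2
      apply hg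
      have h3 : g ∈ (Abelianization.of (G := G)).ker := h2
      rwa [Abelianization.ker_of] at h3
    have hfin : Finite (Abelianization G) := inferInstance
    obtain ⟨φ, hφ⟩ := CommGroup.exists_apply_ne_one_of_hasEnoughRootsOfUnity (Abelianization G) ℂ h1
    apply hφ
    have h4 := h _ (lin_mem (φ.comp Abelianization.of)) (by simp)
    have h5 : ((φ (Abelianization.of g) : ℂˣ) : ℂ) = 1 := h4
    exact Units.ext h5

end

section

variable {P₁ P₂ : Type} [Group P₁] [Group P₂] [Fintype P₁] [Fintype P₂]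
  (e : ConjClasses P₁ ≃ ConjClasses P₂) (f : Irr P₁ ≃ Irr P₂)
  (hef : ∀ (χ : Irr P₁) (g : P₁) (h : P₂), e (ConjClasses.mk g) = ConjClasses.mk h →
    (f χ).1 h = χ.1 g)

include hef

theorem e_one : e (ConjClasses.mk 1) = ConjClasses.mk 1 := by
  obtain ⟨h0, hh0⟩ := ConjClasses.exists_rep (e (ConjClasses.mk 1))
  obtain ⟨g0, hg0⟩ := ConjClasses.exists_rep (e.symm (ConjClasses.mk 1))
  have h01 : h0 = 1 := by
    apply eq_one_of_sim
    intro V _ _ _ σ hσ
    obtain ⟨χ, hχ⟩ := f.surjective ⟨chr σ, mem_Irr_of_sim σ hσ⟩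
    obtain ⟨W, _, _, _, ρ, hρ, hρχ⟩ := exists_sim_of_mem_Irr χ.1 χ.2
    have a1 : chr σ h0 = χ.1 1 := by
      rw [← hef χ 1 h0 hh0.symm, hχ]
    have a2 : chr σ 1 = χ.1 g0 := by
      rw [← hef χ g0 1 (by rw [hg0]; exact e.apply_symm_apply _), hχ]
    rw [← hρχ] at a1 a2
    rw [chr_one] at a1 a2
    have b1 := (chr_props ρ g0).2.1
    have b2 := (chr_props σ h0).2.1
    rw [← a2] at b1
    rw [a1] at b2
    simp only [Complex.natCast_re, Nat.cast_le] at b1 b2
    apply (chr_props σ h0).2.2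
    rw [a1]
    exact_mod_cast le_antisymm b2 b1
  rw [← hh0, h01]

theorem f_one (χ : Irr P₁) : (f χ).1 1 = χ.1 1 := hef χ 1 1 (e_one e f hef)

omit [Fintype P₂] in
theorem f_triv : (f ⟨_, one_mem_Irr⟩).1 = fun _ => 1 := by
  funext h
  obtain ⟨g, hg⟩ := ConjClasses.exists_rep (e.symm (ConjClasses.mk h))
  rw [hef _ g h (by rw [hg]; exact e.apply_symm_apply _)]

theorem comm_iff (g : P₁) (h : P₂) (hgh : e (ConjClasses.mk g) = ConjClasses.mk h) :
    g ∈ commutator P₁ ↔ h ∈ commutator P₂ := by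
  rw [mem_commutator_iff, mem_commutator_iff]
  constructor
  · intro H ψ hψ h1
    obtain ⟨χ, hχ⟩ := f.surjective ⟨ψ, hψ⟩
    have e1 : χ.1 1 = 1 := by rw [← f_one e f hef χ, hχ]; exact h1
    have e2 := H χ.1 χ.2 e1
    rw [← hef χ g h hgh, hχ] at e2
    exact e2
  · intro H χ hχ h1
    have e1 := H (f ⟨χ, hχ⟩).1 (f ⟨χ, hχ⟩).2 (by rw [f_one e f hef]; exact h1)
    rw [hef _ g h hgh] at e1
    exact e1

omit hef in
theorem sum_classes {G : Type} [Group G] [Fintype G] (F : ConjClasses G → ℂ) :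
    ∑ g, F (ConjClasses.mk g) =
      ∑ K, ((Finset.univ.filter fun g : G => ConjClasses.mk g = K).card : ℂ) * F K := by
  rw [← Finset.sum_fiberwise (s := Finset.univ) (g := fun g : G => ConjClasses.mk g)]
  refine Finset.sum_congr rfl fun K _ => ?_
  rw [Finset.sum_congr rfl (g := fun _ => F K), Finset.sum_const, nsmul_eq_mul]
  intro g hg
  rw [(Finset.mem_filter.mp hg).2]

theorem sum_eq_sum (F : ConjClasses P₁ → ℂ) :
    ∑ g, F (ConjClasses.mk g) = ∑ h, F (e.symm (ConjClasses.mk h)) := by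
  set n₁ : ConjClasses P₁ → ℕ := fun K =>
    (Finset.univ.filter fun g : P₁ => ConjClasses.mk g = K).card with hn₁
  set n₂ : ConjClasses P₂ → ℕ := fun K =>
    (Finset.univ.filter fun g : P₂ => ConjClasses.mk g = K).card with hn₂
  have hpos : ∀ g : P₁, (n₁ (ConjClasses.mk g) : ℂ) ≠ 0 := by
    intro g
    have : 0 < n₁ (ConjClasses.mk g) := Finset.card_pos.mpr ⟨g, by simp⟩
    exact_mod_cast this.ne'
  set w : P₁ → ℂ := fun g => (n₂ (e (ConjClasses.mk g)) : ℂ) / n₁ (ConjClasses.mk g) with hw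
  have hsum : ∀ F : ConjClasses P₁ → ℂ,
      ∑ g, w g * F (ConjClasses.mk g) = ∑ h, F (e.symm (ConjClasses.mk h)) := by
    intro F
    have e1 := sum_classes (fun K => (n₂ (e K) : ℂ) / n₁ K * F K)
    have e2 := sum_classes (fun L : ConjClasses P₂ => F (e.symm L))
    rw [e1, e2, ← Equiv.sum_comp e]
    refine Finset.sum_congr rfl fun K _ => ?_
    rw [e.symm_apply_apply]
    obtain ⟨g, rfl⟩ := ConjClasses.exists_rep K
    have := hpos g
    show (n₁ (ConjClasses.mk g) : ℂ) * ((n₂ (e (ConjClasses.mk g)) : ℂ) /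
      n₁ (ConjClasses.mk g) * F (ConjClasses.mk g)) = n₂ (e (ConjClasses.mk g)) * _
    field_simp
  have c1 : (Fintype.card P₁ : ℂ) ≠ 0 := by exact_mod_cast Fintype.card_ne_zero
  have c2 : (Fintype.card P₂ : ℂ) ≠ 0 := by exact_mod_cast Fintype.card_ne_zero
  have hz : (fun g => w g / Fintype.card P₂ - 1 / Fintype.card P₁ : P₁ → ℂ) = 0 := by
    apply sep
    · intro g x
      have : ConjClasses.mk (x * g * x⁻¹) = ConjClasses.mk g := by
        rw [ConjClasses.mk_eq_mk_iff_isConj, isConj_iff]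
        exact ⟨x⁻¹, by group⟩
      simp only [hw, this]
    · intro χ hχ
      have h1 : ∑ g, w g * χ g = ∑ h, (f ⟨χ, hχ⟩).1 h := by
        have h2 := hsum (fun K => χ (Classical.choose (ConjClasses.exists_rep K)))
        have h3 : ∀ g, χ (Classical.choose (ConjClasses.exists_rep (ConjClasses.mk g))) = χ g :=
          fun g => Irr_congr χ hχ _ _ (Classical.choose_spec
            (ConjClasses.exists_rep (ConjClasses.mk g)))
        have h4 : ∀ h : P₂, χ (Classical.choose (ConjClasses.exists_rep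
            (e.symm (ConjClasses.mk h)))) = (f ⟨χ, hχ⟩).1 h := by
          intro h
          rw [hef ⟨χ, hχ⟩ (Classical.choose (ConjClasses.exists_rep
            (e.symm (ConjClasses.mk h)))) h]
          rw [Classical.choose_spec (ConjClasses.exists_rep (e.symm (ConjClasses.mk h)))]
          exact e.apply_symm_apply _
        simp only [h3, h4] at h2
        exact h2
      have h5 : ∑ g, (w g / Fintype.card P₂ - 1 / Fintype.card P₁) * χ g =
          (∑ g, w g * χ g) / Fintype.card P₂ - (∑ g, χ g) / Fintype.card P₁ := by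
        rw [Finset.sum_div, Finset.sum_div, ← Finset.sum_sub_distrib]
        exact Finset.sum_congr rfl fun g _ => by ring
      rw [h5, h1]
      by_cases ht : χ = fun _ => 1
      · have h6 : (f ⟨χ, hχ⟩).1 = fun _ => 1 := by
          subst ht
          exact f_triv e f hef
        rw [h6, ht]
        simp [c1, c2]
      · have h6 : (f ⟨χ, hχ⟩).1 ≠ fun _ => 1 := by
          intro h7
          apply ht
          have h8 : f ⟨χ, hχ⟩ = f ⟨_, one_mem_Irr⟩ := by
            apply Subtype.ext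
            rw [h7, f_triv e f hef]
          have h9 := f.injective h8
          exact congrArg Subtype.val h9
        rw [sum_Irr χ hχ ht, sum_Irr _ (f ⟨χ, hχ⟩).2 h6]
        simp
  have hcw : ∀ g, w g = Fintype.card P₂ / Fintype.card P₁ := by
    intro g
    have := congrFun hz g
    simp only [Pi.zero_apply, sub_eq_zero] at this
    field_simp at this ⊢
    exact this
  have hw1 : w 1 = 1 := by
    have e1 : n₁ (ConjClasses.mk 1) = 1 := by
      show (Finset.univ.filter fun g : P₁ => ConjClasses.mk g = ConjClasses.mk 1).card = 1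
      rw [Finset.card_eq_one]
      refine ⟨1, ?_⟩
      ext g
      simp [ConjClasses.mk_eq_mk_iff_isConj, isConj_iff]
    have e2 : n₂ (ConjClasses.mk 1) = 1 := by
      show (Finset.univ.filter fun g : P₂ => ConjClasses.mk g = ConjClasses.mk 1).card = 1
      rw [Finset.card_eq_one]
      refine ⟨1, ?_⟩
      ext g
      simp [ConjClasses.mk_eq_mk_iff_isConj, isConj_iff]
    show (n₂ (e (ConjClasses.mk 1)) : ℂ) / n₁ (ConjClasses.mk 1) = 1
    rw [e_one e f hef, e1, e2]
    simp
  have hwg : ∀ g, w g = 1 := fun g => by rw [hcw g, ← hcw 1, hw1]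
  rw [← hsum F]
  exact Finset.sum_congr rfl fun g _ => by rw [hwg, one_mul]

/-- the table determines the sums of class functions -/
theorem sum_transfer (a : P₁ → ℂ) (b : P₂ → ℂ)
    (hab : ∀ g h, e (ConjClasses.mk g) = ConjClasses.mk h → a g = b h) :
    ∑ g, a g = ∑ h, b h := by
  have h2 := sum_eq_sum e f hef (fun K => a (Classical.choose (ConjClasses.exists_rep K)))
  have hrep : ∀ h : P₂, ∃ g : P₁, e (ConjClasses.mk g) = ConjClasses.mk h := by
    intro h
    obtain ⟨g, hg⟩ := ConjClasses.exists_rep (e.symm (ConjClasses.mk h))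
    exact ⟨g, by rw [hg]; exact e.apply_symm_apply _⟩
  have h3 : ∀ g, a (Classical.choose (ConjClasses.exists_rep (ConjClasses.mk g))) = a g := by
    intro g
    obtain ⟨h, hh⟩ := ConjClasses.exists_rep (e (ConjClasses.mk g))
    rw [hab g h hh.symm]
    apply hab
    rw [Classical.choose_spec (ConjClasses.exists_rep (ConjClasses.mk g))]
    exact hh.symm
  have h4 : ∀ h : P₂, a (Classical.choose (ConjClasses.exists_rep
      (e.symm (ConjClasses.mk h)))) = b h := by
    intro h
    apply hab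
    rw [Classical.choose_spec (ConjClasses.exists_rep (e.symm (ConjClasses.mk h)))]
    exact e.apply_symm_apply _
  simp only [h3, h4] at h2
  exact h2

end

end Pool.Agent.Helper10.CT
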