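import Pool.Agent.Helper10.CT.PGrp

/-!
# Representations of small degree of finite p-groups: fixed vectors of the derived series
-/

set_option autoImplicit false

open scoped Classical commutatorElement DirectSum

namespace Pool.Agent.Helper10.CT

theorem derivedSeries_succ_le {H : Type} [Group H] (K : Subgroup H) (hK : commutator H ≤ K)
    (j : ℕ) : derivedSeries H (j + 1) ≤ (derivedSeries K j).map K.subtype := by
  induction j with
  | zero =>
    rw [derivedSeries_zero, ← MonoidHom.range_eq_map, Subgroup.range_subtype]
    exact hK
  | succ j ih =>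
    rw [derivedSeries_succ H (j + 1), derivedSeries_succ K j, Subgroup.map_commutator]
    exact Subgroup.commutator_mono ih ih

section

variable {V : Type} [AddCommGroup V] [Module ℂ V] [FiniteDimensional ℂ V]

/-- many eigenspaces of dimension at least `d` -/
theorem card_mul_le (T : Module.End ℂ V) (ι : Type) [Fintype ι] (m : ι → ℂ)
    (hm : Function.Injective m) (d : ℕ) (hd : ∀ i, d ≤ Module.finrank ℂ (T.eigenspace (m i))) :
    Fintype.card ι * d ≤ Module.finrank ℂ V := by
  have h1 : iSupIndep fun i => T.eigenspace (m i) :=
    (Module.End.eigenspaces_iSupIndep T).comp hm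
  have h2 := h1.dfinsupp_lsum_injective
  have h3 : Module.finrank ℂ (⨁ i, T.eigenspace (m i)) ≤ Module.finrank ℂ V :=
    LinearMap.finrank_le_finrank_of_injective (f := (DFinsupp.lsum ℕ fun i =>
      (T.eigenspace (m i)).subtype : (⨁ i, T.eigenspace (m i)) →ₗ[ℂ] V)) h2
  rw [Module.finrank_directSum] at h3
  calc Fintype.card ι * d = ∑ _i : ι, d := by simp
    _ ≤ ∑ i, Module.finrank ℂ (T.eigenspace (m i)) := Finset.sum_le_sum fun i _ => hd i
    _ ≤ _ := h3

end

/-- a representation of degree less than `p ^ j` of a finite p-group has a nonzero vector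
fixed by the `j`-th derived subgroup -/
theorem exists_fixed {p : ℕ} [Fact p.Prime] : ∀ (j : ℕ) (H : Type) [Group H] [Finite H]
    (_ : IsPGroup p H) (V : Type) [AddCommGroup V] [Module ℂ V] [FiniteDimensional ℂ V]
    [Nontrivial V] (ρ : H →* (V →ₗ[ℂ] V)), Module.finrank ℂ V < p ^ j →
    ∃ v : V, v ≠ 0 ∧ ∀ h ∈ derivedSeries H j, ρ h v = v := by
  intro j
  induction j with
  | zero =>
    intro H _ _ _ V _ _ _ _ ρ hd
    exfalso
    have : 0 < Module.finrank ℂ V := Module.finrank_pos
    rw [pow_zero] at hd
    omega
  | succ j ih =>
    intro H _ _ hH V _ _ _ _ ρ hd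
    obtain ⟨U, hU, hs⟩ := exists_sim_sub ρ inferInstance
    set σ := rst ρ U hU with hσ
    have hUn := hs.1
    have hdU : Module.finrank ℂ U < p ^ (j + 1) := lt_of_le_of_lt (Submodule.finrank_le U) hd
    by_cases hA : (⊤ : Subgroup H) ≤ scl σ
    · obtain ⟨u, hu⟩ := exists_ne (0 : U)
      refine ⟨u, fun h0 => hu (Subtype.ext h0), fun h hh => ?_⟩
      have h1 : derivedSeries H (j + 1) ≤ σ.ker := by
        refine (derivedSeries_antitone H (by omega : 1 ≤ j + 1)).trans ?_
        rw [derivedSeries_one, commutator_def, Subgroup.commutator_le]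
        intro x _ y _
        rw [MonoidHom.mem_ker, commutatorElement_def, map_mul, map_mul, map_mul]
        obtain ⟨c, hc⟩ := hA (Subgroup.mem_top x)
        have hxy : σ x * σ y = σ y * σ x := by
          rw [hc, smul_mul_assoc, mul_smul_comm, one_mul, mul_one]
        rw [hxy, mul_assoc (σ y), rho_mul_inv, mul_one, rho_mul_inv]
      have h2 : σ h = 1 := h1 hh
      have h3 := LinearMap.congr_fun h2 u
      exact congrArg Subtype.val h3
    · obtain ⟨x, -, hxA, hx⟩ := exists_central_mod hH ⊤ (scl σ) hA
      obtain ⟨α, hα⟩ := exists_alpha σ x hx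
      -- the eigenspace
      obtain ⟨l, hl⟩ := Module.End.exists_eigenvalue (σ x)
      have hl0 : l ≠ 0 := by
        rintro rfl
        obtain ⟨v, hv⟩ := hl.exists_hasEigenvector
        have h1 := hv.apply_eq_smul
        rw [zero_smul] at h1
        have h2 : σ x⁻¹ (σ x v) = v := by
          rw [← Module.End.mul_apply, rho_inv_mul]; rfl
        rw [h1, map_zero] at h2
        exact hv.2 h2.symm
      have hmove : ∀ g (v : U), v ∈ Module.End.eigenspace (σ x) l →
          σ g v ∈ Module.End.eigenspace (σ x) (((α g⁻¹ : ℂˣ) : ℂ) * l) := by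
        intro g v hv
        rw [Module.End.mem_eigenspace_iff] at hv ⊢
        have h1 : σ x * σ g = σ g * σ (g⁻¹ * x * g) := by
          rw [← map_mul, ← map_mul]; congr 1; group
        have h2 := hα g⁻¹
        rw [inv_inv] at h2
        rw [← Module.End.mul_apply, h1, h2, mul_smul_comm, LinearMap.smul_apply,
          Module.End.mul_apply, hv, map_smul, smul_smul]
      set E := Module.End.eigenspace (σ x) l with hE
      have hEn : Nontrivial E := by
        rw [Submodule.nontrivial_iff_ne_bot]
        exact hl
      have hdim : ∀ g : H, Module.finrank ℂ E ≤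
          Module.finrank ℂ (Module.End.eigenspace (σ x) (((α g : ℂˣ) : ℂ) * l)) := by
        intro g
        have h0 : ∀ v : E, σ g⁻¹ v ∈ Module.End.eigenspace (σ x) (((α g : ℂˣ) : ℂ) * l) := by
          intro v
          have := hmove g⁻¹ v v.2
          rwa [inv_inv] at this
        let F : E →ₗ[ℂ] Module.End.eigenspace (σ x) (((α g : ℂˣ) : ℂ) * l) :=
          LinearMap.codRestrict _ ((σ g⁻¹) ∘ₗ E.subtype) h0
        apply LinearMap.finrank_le_finrank_of_injective (f := F)
        intro v w hvw
        have h1 : σ g⁻¹ v = σ g⁻¹ w := congrArg Subtype.val hvw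
        have h2 := congrArg (σ g) h1
        rw [← Module.End.mul_apply, ← Module.End.mul_apply, rho_mul_inv] at h2
        exact Subtype.ext h2
      have : Finite α.range := Finite.of_surjective α.rangeRestrict α.rangeRestrict_surjective
      have : Fintype α.range := Fintype.ofFinite _
      have hcard : Fintype.card α.range * Module.finrank ℂ E ≤ Module.finrank ℂ U := by
        apply card_mul_le (σ x) α.range (fun z => ((z : ℂˣ) : ℂ) * l)
        · intro z w hzw
          have h1 := mul_right_cancel₀ hl0 hzw
          exact Subtype.ext (Units.ext h1)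
        · rintro ⟨_, g, rfl⟩
          exact hdim g
      have hrange : p ∣ Fintype.card α.range := by
        have h1 : IsPGroup p α.range := hH.of_surjective α.rangeRestrict α.rangeRestrict_surjective
        rcases h1.card_eq_or_dvd with h2 | h2
        · exfalso
          have hall : ∀ g, α g = 1 := by
            intro g
            have h3 : Subsingleton α.range := (Nat.card_eq_one_iff_unique.mp h2).1
            have h4 : (⟨α g, g, rfl⟩ : α.range) = 1 := Subsingleton.elim _ _
            exact congrArg Subtype.val h4
          apply hxA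
          apply schur σ hs (σ x)
          intro g
          have h5 := hα g
          rw [hall g, Units.val_one, one_smul] at h5
          have h6 : σ (g * x * g⁻¹) * σ g = σ g * σ x := by
            rw [← map_mul, ← map_mul]; congr 1; group
          rw [h5] at h6
          exact h6
        · rwa [Nat.card_eq_fintype_card] at h2
      have hp := (Fact.out : p.Prime)
      have hEd : Module.finrank ℂ E < p ^ j := by
        have h1 : p ≤ Fintype.card α.range := Nat.le_of_dvd Fintype.card_pos hrange
        have h2 : p * Module.finrank ℂ E < p * p ^ j := by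
          calc p * Module.finrank ℂ E ≤ Fintype.card α.range * Module.finrank ℂ E :=
                Nat.mul_le_mul_right _ h1
            _ ≤ Module.finrank ℂ U := hcard
            _ < p ^ (j + 1) := hdU
            _ = p * p ^ j := by rw [pow_succ, mul_comm]
        exact lt_of_mul_lt_mul_left h2 (Nat.zero_le _)
      -- the action of the kernel
      have hEinv : ∀ g : α.ker, ∀ u ∈ E, (σ.comp α.ker.subtype) g u ∈ E := by
        intro g u hu
        have h1 := hmove g u hu
        have h2 : α (g : H)⁻¹ = 1 := by
          have h3 : α (g : H) = 1 := g.2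
          rw [map_inv, h3, inv_one]
        rw [h2, Units.val_one, one_mul] at h1
        exact h1
      obtain ⟨v, hv0, hv⟩ := ih α.ker (hH.to_subgroup _) E
        (rst (σ.comp α.ker.subtype) E hEinv) hEd
      refine ⟨((v : U) : V), ?_, ?_⟩
      · intro h0
        apply hv0
        exact Subtype.ext (Subtype.ext h0)
      · intro h hh
        have h1 := derivedSeries_succ_le α.ker (Abelianization.commutator_subset_ker α) j hh
        obtain ⟨k, hk, rfl⟩ := h1
        have h2 := hv k hk
        have h3 := congrArg (fun w : E => ((w : U) : V)) h2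
        exact h3

end Pool.Agent.Helper10.CT
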