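import Pool.Agent.Helper10.CT.Rep

/-!
# Character tables: values of characters
-/

set_option autoImplicit false

open scoped Classical ComplexOrder MatrixOrder

namespace Pool.Agent.Helper10.CT

open Matrix

section

variable {G : Type} [Group G] [Fintype G] {n : ℕ}

theorem unitary_mat (M : G →* Matrix (Fin n) (Fin n) ℂ) :
    ∃ (B B' : Matrix (Fin n) (Fin n) ℂ), B * B' = 1 ∧ B' * B = 1 ∧
      ∀ g, (B * M g * B')ᴴ * (B * M g * B') = 1 := by
  set H : Matrix (Fin n) (Fin n) ℂ := ∑ g : G, (M g)ᴴ * M g with hH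
  have hps : ∀ s : Finset G, (∑ g ∈ s, (M g)ᴴ * M g).PosSemidef := by
    intro s
    induction s using Finset.induction_on with
    | empty => simp [Matrix.PosSemidef.zero]
    | insert a s ha ih =>
      rw [Finset.sum_insert ha]
      exact (Matrix.posSemidef_conjTranspose_mul_self _).add ih
  have hpd : H.PosDef := by
    rw [hH, ← Finset.add_sum_erase _ _ (Finset.mem_univ (1 : G)), map_one, conjTranspose_one,
      Matrix.one_mul]
    exact Matrix.PosDef.one.add_posSemidef (hps _)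
  obtain ⟨B, hB⟩ : ∃ B : Matrix (Fin n) (Fin n) ℂ, H = Bᴴ * B := by
    obtain ⟨B, hB⟩ := CStarAlgebra.nonneg_iff_eq_star_mul_self.mp hpd.posSemidef.nonneg
    exact ⟨B, by rw [hB, star_eq_conjTranspose]⟩
  have hdet : IsUnit B.det := by
    have h1 : H.det ≠ 0 := ne_of_gt hpd.det_pos
    rw [hB, det_mul] at h1
    exact (right_ne_zero_of_mul h1).isUnit
  have hinv : ∀ h, (M h)ᴴ * H * M h = H := by
    intro h
    rw [hH, Finset.mul_sum, Finset.sum_mul]
    refine Fintype.sum_equiv (Equiv.mulRight h) _ _ fun g => ?_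
    rw [Equiv.coe_mulRight, map_mul, conjTranspose_mul]
    simp only [Matrix.mul_assoc]
  refine ⟨B, B⁻¹, mul_nonsing_inv _ hdet, nonsing_inv_mul _ hdet, fun g => ?_⟩
  have h1 : (B * M g * B⁻¹)ᴴ * (B * M g * B⁻¹) = (B⁻¹)ᴴ * ((M g)ᴴ * (Bᴴ * B) * M g) * B⁻¹ := by
    rw [conjTranspose_mul, conjTranspose_mul]
    simp only [Matrix.mul_assoc]
  rw [h1, ← hB, hinv, hB]
  calc (B⁻¹)ᴴ * (Bᴴ * B) * B⁻¹ = ((B⁻¹)ᴴ * Bᴴ) * (B * B⁻¹) := by simp only [Matrix.mul_assoc]
    _ = 1 := by rw [← conjTranspose_mul, mul_nonsing_inv _ hdet, conjTranspose_one, Matrix.one_mul]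

theorem mat_chars (M : G →* Matrix (Fin n) (Fin n) ℂ) (g : G) :
    (M g⁻¹).trace = star (M g).trace ∧ (M g).trace.re ≤ n ∧ ((M g).trace = n → M g = 1) := by
  obtain ⟨B, B', hB1, hB2, hu⟩ := unitary_mat M
  have htr : ∀ g, (B * M g * B').trace = (M g).trace := by
    intro g
    rw [trace_mul_comm, ← Matrix.mul_assoc, hB2, Matrix.one_mul]
  have hinv : (B * M g * B')ᴴ = B * M g⁻¹ * B' := by
    have h1 : (B * M g * B') * (B * M g⁻¹ * B') = 1 := by
      calc (B * M g * B') * (B * M g⁻¹ * B') = B * M g * (B' * B) * M g⁻¹ * B' := by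
            simp only [Matrix.mul_assoc]
        _ = B * (M g * M g⁻¹) * B' := by rw [hB2, Matrix.mul_one]; simp only [Matrix.mul_assoc]
        _ = 1 := by rw [← map_mul, mul_inv_cancel, map_one, Matrix.mul_one, hB1]
    exact left_inv_eq_right_inv (hu g) h1
  set S := B * M g * B' with hS
  have h2 : ((S - 1)ᴴ * (S - 1)).trace = 2 * (n : ℂ) - star (M g).trace - (M g).trace := by
    have h3 : (S - 1)ᴴ * (S - 1) = Sᴴ * S - Sᴴ - S + 1 := by
      rw [conjTranspose_sub, conjTranspose_one]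
      noncomm_ring
    rw [h3, hu g, trace_add, trace_sub, trace_sub, trace_conjTranspose, htr, trace_one,
      Fintype.card_fin]
    ring
  refine ⟨?_, ?_, ?_⟩
  · rw [← htr g⁻¹, ← hinv, trace_conjTranspose, htr]
  · have h4 : 0 ≤ ((S - 1)ᴴ * (S - 1)).trace :=
      (Matrix.posSemidef_conjTranspose_mul_self (S - 1)).trace_nonneg
    rw [h2] at h4
    have h5 := (Complex.le_def.mp h4).1
    simp at h5
    linarith
  · intro h
    rw [h] at h2
    have h6 : ((S - 1)ᴴ * (S - 1)).trace = 0 := by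
      rw [h2]; simp; ring
    rw [trace_conjTranspose_mul_self_eq_zero_iff] at h6
    have h7 : S = 1 := sub_eq_zero.mp h6
    calc M g = (B' * B) * M g * (B' * B) := by rw [hB2]; simp
      _ = B' * S * B := by rw [hS]; simp only [Matrix.mul_assoc]
      _ = 1 := by rw [h7, Matrix.mul_one, hB2]

end

section

variable {G V : Type} [Group G] [Fintype G] [AddCommGroup V] [Module ℂ V] [FiniteDimensional ℂ V]

/-- the character -/
noncomputable def chr {G V : Type} [Group G] [AddCommGroup V] [Module ℂ V]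
    (ρ : G →* (V →ₗ[ℂ] V)) (g : G) : ℂ := LinearMap.trace ℂ V (ρ g)

/-- properties of the values of a character -/
theorem chr_props (ρ : G →* (V →ₗ[ℂ] V)) (g : G) :
    chr ρ g⁻¹ = star (chr ρ g) ∧ (chr ρ g).re ≤ Module.finrank ℂ V ∧
      (chr ρ g = Module.finrank ℂ V → ρ g = 1) := by
  let b := Module.finBasis ℂ V
  let M : G →* Matrix (Fin (Module.finrank ℂ V)) (Fin (Module.finrank ℂ V)) ℂ :=
    ((LinearMap.toMatrixAlgEquiv b).toRingEquiv.toMonoidHom).comp ρ
  have htr : ∀ g, chr ρ g = (M g).trace := fun g => LinearMap.trace_eq_matrix_trace ℂ b (ρ g)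
  obtain ⟨h1, h2, h3⟩ := mat_chars M g
  refine ⟨by rw [htr, htr, h1], by rw [htr]; exact h2, fun h => ?_⟩
  have h4 : M g = 1 := h3 (by rw [← htr]; exact h)
  have h5 : (LinearMap.toMatrixAlgEquiv b) (ρ g) = (LinearMap.toMatrixAlgEquiv b) 1 := by
    rw [map_one]; exact h4
  exact (LinearMap.toMatrixAlgEquiv b).injective h5

omit [Fintype G] in
theorem chr_one (ρ : G →* (V →ₗ[ℂ] V)) : chr ρ 1 = Module.finrank ℂ V := by
  unfold chr
  rw [map_one, LinearMap.trace_one]

omit [Fintype G] [FiniteDimensional ℂ V] in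
theorem chr_conj (ρ : G →* (V →ₗ[ℂ] V)) (g h : G) : chr ρ (h * g * h⁻¹) = chr ρ g := by
  unfold chr
  rw [map_mul, LinearMap.trace_mul_comm, ← map_mul, ← mul_assoc, inv_mul_cancel, one_mul]

end

end Pool.Agent.Helper10.CT
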